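import Mathlib

/-!
# Multiplicative sets of `2 × 2` matrices with eigenvalue one
-/

set_option autoImplicit false

namespace Pool.Agent.V8H88.GO

open Matrix

variable {k : Type} [Field k]

/-- closed under multiplication, invertible, with eigenvalue one -/
def Good (Z : Set (Matrix (Fin 2) (Fin 2) k)) : Prop :=
  (∀ A ∈ Z, ∀ B ∈ Z, A * B ∈ Z) ∧ ∀ A ∈ Z, (1 - A).det = 0 ∧ A.det ≠ 0

/-- a common vector -/
def Concl (Z : Set (Matrix (Fin 2) (Fin 2) k)) : Prop :=
  ∃ x : Fin 2 → k, x ≠ 0 ∧ ((∀ A ∈ Z, A *ᵥ x = x) ∨ (∀ A ∈ Z, A *ᵥ x = A.det • x))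

/-- conjugation -/
def cj (P Q : Matrix (Fin 2) (Fin 2) k) (Z : Set (Matrix (Fin 2) (Fin 2) k)) :
    Set (Matrix (Fin 2) (Fin 2) k) := (fun A => Q * A * P) '' Z

theorem det_cj {P Q : Matrix (Fin 2) (Fin 2) k} (h : Q * P = 1) (A : Matrix (Fin 2) (Fin 2) k) :
    (Q * A * P).det = A.det := by
  have h1 : Q.det * P.det = 1 := by rw [← det_mul, h, det_one]
  rw [det_mul, det_mul]
  linear_combination A.det * h1

theorem good_cj {P Q : Matrix (Fin 2) (Fin 2) k} (h : Q * P = 1)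
    {Z : Set (Matrix (Fin 2) (Fin 2) k)} (hZ : Good Z) : Good (cj P Q Z) := by
  have h' : P * Q = 1 := mul_eq_one_comm.mp h
  refine ⟨?_, ?_⟩
  · rintro _ ⟨A, hA, rfl⟩ _ ⟨B, hB, rfl⟩
    refine ⟨A * B, hZ.1 A hA B hB, ?_⟩
    change Q * (A * B) * P = Q * A * P * (Q * B * P)
    calc Q * (A * B) * P = Q * A * 1 * (B * P) := by simp [mul_assoc]
      _ = Q * A * P * (Q * B * P) := by rw [← h']; simp [mul_assoc]
  · rintro _ ⟨A, hA, rfl⟩
    obtain ⟨h1, h2⟩ := hZ.2 A hA
    refine ⟨?_, ?_⟩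
    · have : (1 : Matrix (Fin 2) (Fin 2) k) - Q * A * P = Q * (1 - A) * P := by
        rw [mul_sub, sub_mul, mul_one, h]
      change (1 - Q * A * P).det = 0
      rw [this, det_cj h, h1]
    · change (Q * A * P).det ≠ 0
      rwa [det_cj h]

theorem concl_cj {P Q : Matrix (Fin 2) (Fin 2) k} (h : Q * P = 1)
    {Z : Set (Matrix (Fin 2) (Fin 2) k)} (hZ : Concl (cj P Q Z)) : Concl Z := by
  have h' : P * Q = 1 := mul_eq_one_comm.mp h
  obtain ⟨x, hx, hc⟩ := hZ
  refine ⟨P *ᵥ x, fun h0 => hx ?_, ?_⟩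
  · have : Q *ᵥ (P *ᵥ x) = x := by rw [mulVec_mulVec, h, one_mulVec]
    rw [← this, h0, mulVec_zero]
  · have key : ∀ A : Matrix (Fin 2) (Fin 2) k, A *ᵥ (P *ᵥ x) = P *ᵥ ((Q * A * P) *ᵥ x) := by
      intro A
      rw [mulVec_mulVec, mulVec_mulVec]
      congr 1
      calc A * P = (P * Q) * (A * P) := by rw [h', one_mul]
        _ = P * (Q * A * P) := by simp [mul_assoc]
    rcases hc with hc | hc
    · left
      intro A hA
      rw [key, hc _ ⟨A, hA, rfl⟩]
    · right
      intro A hA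
      have := hc _ ⟨A, hA, rfl⟩
      change (Q * A * P) *ᵥ x = (Q * A * P).det • x at this
      rw [key, this, det_cj h, mulVec_smul]

theorem det_one_sub (A : Matrix (Fin 2) (Fin 2) k) :
    (1 - A).det = (1 - A 0 0) * (1 - A 1 1) - A 0 1 * A 1 0 := by
  rw [det_fin_two]; simp

theorem core_uni {Z : Set (Matrix (Fin 2) (Fin 2) k)} (hZ : Good Z) (hdet : ∀ A ∈ Z, A.det = 1)
    (b : k) (hb : b ≠ 0) (hY : !![1, b; 0, 1] ∈ Z) : Concl Z := by
  refine ⟨![1, 0], fun h => one_ne_zero (congrFun h 0), Or.inl fun A hA => ?_⟩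
  have h1 := (hZ.2 A hA).1
  have h2 := (hZ.2 _ (hZ.1 _ hY A hA)).1
  have h3 := hdet A hA
  rw [det_one_sub] at h1 h2
  rw [det_fin_two] at h3
  simp only [mul_apply, Fin.sum_univ_two, of_apply, cons_val', cons_val_zero, cons_val_one,
    cons_val_fin_one] at h2
  have hr : A 1 0 = 0 := by
    have : b * A 1 0 = 0 := by linear_combination h1 - h2
    exact (mul_eq_zero.mp this).resolve_left hb
  rw [hr] at h1 h3
  have hp : A 0 0 = 1 := by
    have : (A 0 0 - 1) ^ 2 = 0 := by linear_combination (-A 0 0) * h1 + (-1 + A 0 0) * h3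
    have := pow_eq_zero_iff (two_ne_zero) |>.mp this
    linear_combination this
  funext i
  fin_cases i
  · simp [mulVec, dotProduct, Fin.sum_univ_two, hp]
  · simp [mulVec, dotProduct, Fin.sum_univ_two, hr]

theorem core_diag {Z : Set (Matrix (Fin 2) (Fin 2) k)} (hZ : Good Z)
    (y : k) (hy : y ≠ 1) (hY : !![1, 0; 0, y] ∈ Z) : Concl Z := by
  have hp : ∀ A ∈ Z, A 0 0 = 1 ∧ A 0 1 * A 1 0 = 0 := by
    intro A hA
    have h1 := (hZ.2 A hA).1
    have h2 := (hZ.2 _ (hZ.1 _ hY A hA)).1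
    rw [det_one_sub] at h1 h2
    simp only [mul_apply, Fin.sum_univ_two, of_apply, cons_val', cons_val_zero, cons_val_one,
      cons_val_fin_one] at h2
    have h3 : (1 - A 0 0) * (1 - y) = 0 := by linear_combination h2 - y * h1
    have h4 : A 0 0 = 1 := by
      have := (mul_eq_zero.mp h3).resolve_right (sub_ne_zero.mpr hy.symm)
      linear_combination -this
    refine ⟨h4, ?_⟩
    rw [h4] at h1
    linear_combination -h1
  by_cases hu : ∀ A ∈ Z, A 1 0 = 0
  · refine ⟨![1, 0], fun h => one_ne_zero (congrFun h 0), Or.inl fun A hA => ?_⟩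
    funext i
    fin_cases i
    · simp [mulVec, dotProduct, Fin.sum_univ_two, (hp A hA).1]
    · simp [mulVec, dotProduct, Fin.sum_univ_two, hu A hA]
  · by_cases hl : ∀ A ∈ Z, A 0 1 = 0
    · refine ⟨![0, 1], fun h => one_ne_zero (congrFun h 1), Or.inr fun A hA => ?_⟩
      have hd : A.det = A 1 1 := by
        rw [det_fin_two, (hp A hA).1, hl A hA]; ring
      funext i
      fin_cases i
      · simp [mulVec, dotProduct, Fin.sum_univ_two, hl A hA]
      · simp [mulVec, dotProduct, Fin.sum_univ_two, hd]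
    · exfalso
      push Not at hu hl
      obtain ⟨A, hA, hA1⟩ := hu
      obtain ⟨B, hB, hB1⟩ := hl
      have h5 := (hp _ (hZ.1 B hB A hA)).1
      simp only [mul_apply, Fin.sum_univ_two] at h5
      rw [(hp A hA).1, (hp B hB).1] at h5
      have : B 0 1 * A 1 0 = 0 := by linear_combination h5
      rcases mul_eq_zero.mp this with h | h
      · exact hB1 h
      · exact hA1 h

theorem core_upper {Z : Set (Matrix (Fin 2) (Fin 2) k)} (hZ : Good Z) (b y : k)
    (hdet : y = 1 → (∀ A ∈ Z, A.det = 1)) (hby : y ≠ 1 ∨ b ≠ 0)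
    (hY : !![1, b; 0, y] ∈ Z) : Concl Z := by
  by_cases hy : y = 1
  · subst hy
    exact core_uni hZ (hdet rfl) b (hby.resolve_left (by simp)) hY
  · have hy' : y - 1 ≠ 0 := sub_ne_zero.mpr hy
    set c := b / (y - 1) with hc
    have hcb : c * (y - 1) = b := div_mul_cancel₀ b hy'
    have hPQ : (!![1, -c; 0, 1] : Matrix (Fin 2) (Fin 2) k) * !![1, c; 0, 1] = 1 := by
      ext i j; fin_cases i <;> fin_cases j <;> simp [mul_apply, Fin.sum_univ_two]
    apply concl_cj hPQ
    refine core_diag (good_cj hPQ hZ) y hy ⟨_, hY, ?_⟩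
    ext i j
    fin_cases i <;> fin_cases j <;> simp [mul_apply, Fin.sum_univ_two]
    linear_combination -hcb

/-- A multiplicative set of invertible `2 × 2` matrices with eigenvalue `1` has a common fixed vector
or a common eigenvector with the determinant as eigenvalue. -/
theorem concl_of_good {Z : Set (Matrix (Fin 2) (Fin 2) k)} (hZ : Good Z) : Concl Z := by
  classical
  by_cases hall : ∀ A ∈ Z, A = 1
  · exact ⟨![1, 0], fun h => one_ne_zero (congrFun h 0), Or.inl fun A hA => by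
      rw [hall A hA, one_mulVec]⟩
  -- choose an element, of determinant different from one if possible
  obtain ⟨Y, hY, hY1, hYd⟩ : ∃ Y ∈ Z, Y ≠ 1 ∧ (Y.det = 1 → ∀ A ∈ Z, A.det = 1) := by
    by_cases hd : ∀ A ∈ Z, A.det = 1
    · push Not at hall
      obtain ⟨Y, hY, h⟩ := hall
      exact ⟨Y, hY, h, fun _ => hd⟩
    · push Not at hd
      obtain ⟨Y, hY, h⟩ := hd
      refine ⟨Y, hY, ?_, fun h' => absurd h' h⟩
      rintro rfl; exact h det_one
  obtain ⟨v, hv, hv1⟩ := (exists_mulVec_eq_zero_iff (M := 1 - Y)).mpr (hZ.2 Y hY).1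
  have hYv : Y *ᵥ v = v := by
    rw [sub_mulVec, one_mulVec, sub_eq_zero] at hv1
    exact hv1.symm
  -- complete to a basis
  obtain ⟨P, Q, hQP, hP⟩ : ∃ P Q : Matrix (Fin 2) (Fin 2) k, Q * P = 1 ∧ P *ᵥ ![1, 0] = v := by
    by_cases h0 : v 0 = 0
    · have h1 : v 1 ≠ 0 := fun h1 => hv (by funext i; fin_cases i <;> simp [h0, h1])
      refine ⟨!![0, 1; v 1, 0], !![0, (v 1)⁻¹; 1, 0], ?_, ?_⟩
      · ext i j; fin_cases i <;> fin_cases j <;> simp [mul_apply, Fin.sum_univ_two, h1]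
      · funext i; fin_cases i <;> simp [mulVec, dotProduct, Fin.sum_univ_two, h0]
    · refine ⟨!![v 0, 0; v 1, 1], !![(v 0)⁻¹, 0; -(v 1) * (v 0)⁻¹, 1], ?_, ?_⟩
      · ext i j; fin_cases i <;> fin_cases j <;> simp [mul_apply, Fin.sum_univ_two, h0]
      · funext i; fin_cases i <;> simp [mulVec, dotProduct, Fin.sum_univ_two]
  have hPQ : P * Q = 1 := mul_eq_one_comm.mp hQP
  apply concl_cj hQP
  set Y' := Q * Y * P with hY'
  have hcol : Y' *ᵥ ![1, 0] = ![1, 0] := by
    rw [hY', ← mulVec_mulVec, hP, ← mulVec_mulVec, hYv, ← hP, mulVec_mulVec, hQP, one_mulVec]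
  have h00 : Y' 0 0 = 1 := by
    have := congrFun hcol 0
    simpa [mulVec, dotProduct, Fin.sum_univ_two] using this
  have h10 : Y' 1 0 = 0 := by
    have := congrFun hcol 1
    simpa [mulVec, dotProduct, Fin.sum_univ_two] using this
  have hform : Y' = !![1, Y' 0 1; 0, Y' 1 1] := by
    ext i j; fin_cases i <;> fin_cases j <;> simp [h00, h10]
  have hdY : Y'.det = Y' 1 1 := by
    rw [det_fin_two, h00, h10]; ring
  have hdY' : Y'.det = Y.det := det_cj hQP Y
  refine core_upper (good_cj hQP hZ) (Y' 0 1) (Y' 1 1) ?_ ?_ (by rw [← hform]; exact ⟨Y, hY, rfl⟩)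
  · intro h1
    rintro _ ⟨A, hA, rfl⟩
    change (Q * A * P).det = 1
    rw [det_cj hQP]
    exact hYd (by rw [← hdY', hdY, h1]) A hA
  · by_contra hcon
    push Not at hcon
    have h2 : Y' = 1 := by
      rw [hform, hcon.1, hcon.2]
      ext i j; fin_cases i <;> fin_cases j <;> simp
    apply hY1
    calc Y = (P * Q) * Y * (P * Q) := by rw [hPQ, one_mul, mul_one]
      _ = P * Y' * Q := by rw [hY']; simp [mul_assoc]
      _ = 1 := by rw [h2, mul_one, hPQ]

end Pool.Agent.V8H88.GO
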