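import Pool.Agent.V8H88.GO.Cst
import Pool.Agent.V8H88.GO.Two
import Pool.Agent.Y759.TS.Kol

/-!
# Representations with common eigenvalues
-/

set_option autoImplicit false

namespace Pool.Agent.V8H88.GO

open Matrix Polynomial

variable {k Γ : Type} [Field k] [Group Γ]

variable {n m : Type} [Fintype n] [DecidableEq n] [Fintype m] [DecidableEq m]
  (V : Γ →* Matrix n n k) (W : Γ →* Matrix m m k)

/-- evaluation -/
def evg (g : Γ) : RB V W →ₐ[k] k where
  toFun b := b.1 g
  map_one' := rfl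
  map_mul' _ _ := rfl
  map_zero' := rfl
  map_add' _ _ := rfl
  commutes' _ := rfl

/-- the generic matrix of `V` -/
def gV : Matrix n n (RB V W) := fun i j => ⟨ent V i j, memV V W i j⟩

/-- the generic matrix of `W` -/
def gW : Matrix m m (RB V W) := fun i j => ⟨ent W i j, memW V W i j⟩

theorem evg_gV (g : Γ) : (gV V W).map (evg V W g) = V g := rfl

theorem evg_gW (g : Γ) : (gW V W).map (evg V W g) = W g := rfl

theorem eq_zero_of_evg (b : RB V W) (h : ∀ g, evg V W g b = 0) : b = 0 :=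
  Subtype.ext (funext h)

theorem triv_evg : Triv V W (evg V W 1) := fun _ _ => rfl

theorem map_gV {χ : RB V W →ₐ[k] k} (hχ : Triv V W χ) : (gV V W).map χ = 1 := by
  ext i j
  change χ ⟨ent V i j, _⟩ = _
  rw [hχ _ (memA V i j), ent_one]

theorem triv_pinv {χ : RB V W →ₐ[k] k} (hχ : Triv V W χ) : Triv V W (pinv V W χ) := by
  intro a ha
  have h1 := hχ _ ((hopfA V).inv a ha)
  rw [inv_one] at h1
  exact h1

section stable

variable {W : Γ →* Matrix m m k}

theorem conj_key (γ : Γ) (A : Matrix m m k) (y : m → k) : A *ᵥ (W γ *ᵥ y) =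
    W γ *ᵥ ((W γ⁻¹ * A * W γ) *ᵥ y) := by
  have hWW' : ∀ γ, W γ * W γ⁻¹ = 1 := fun γ => by rw [← map_mul, mul_inv_cancel, map_one]
  rw [mulVec_mulVec, mulVec_mulVec]
  congr 1
  rw [mul_assoc, ← mul_assoc (W γ), hWW', one_mul]

/-- Triviality of an invariant set with a common fixed vector. -/
theorem eq_one_of_fixed (hW : IsIrreducible W) (Z : Set (Matrix m m k))
    (hc : ∀ γ, ∀ A ∈ Z, W γ * A * W γ⁻¹ ∈ Z) (x : m → k) (hx : x ≠ 0)
    (h : ∀ A ∈ Z, A *ᵥ x = x) : ∀ A ∈ Z, A = 1 := by
  have hcc : ∀ γ, ∀ A ∈ Z, W γ⁻¹ * A * W γ ∈ Z := by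
    intro γ A hA
    have := hc γ⁻¹ A hA
    rwa [inv_inv] at this
  let M : Submodule k (m → k) :=
    { carrier := {y | ∀ A ∈ Z, A *ᵥ y = y}
      add_mem' := fun {a b} ha hb A hA => by rw [mulVec_add, ha A hA, hb A hA]
      zero_mem' := fun A _ => mulVec_zero A
      smul_mem' := fun c y hy A hA => by rw [mulVec_smul, hy A hA] }
  rcases hW.2 M (fun g y hy A hA => by rw [conj_key, hy _ (hcc g A hA)]) with hM | hM
  · exfalso
    have : x ∈ M := h
    rw [hM] at this
    exact hx ((Submodule.mem_bot k).mp this)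
  · intro A hA
    have hv : ∀ y : m → k, A *ᵥ y = y := by
      intro y
      have hy : y ∈ M := by rw [hM]; trivial
      exact hy A hA
    apply Matrix.toLin'.injective
    ext y : 2
    simp [hv]

/-- Invariant sets with a common eigenvector with the determinant as eigenvalue. -/
theorem eq_scalar_of_eig (hW : IsIrreducible W) (Z : Set (Matrix m m k))
    (hc : ∀ γ, ∀ A ∈ Z, W γ * A * W γ⁻¹ ∈ Z) (x : m → k) (hx : x ≠ 0)
    (h : ∀ A ∈ Z, A *ᵥ x = A.det • x) : ∀ A ∈ Z, A = A.det • (1 : Matrix m m k) := by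
  have hcc : ∀ γ, ∀ A ∈ Z, W γ⁻¹ * A * W γ ∈ Z := by
    intro γ A hA
    have := hc γ⁻¹ A hA
    rwa [inv_inv] at this
  have hWW : ∀ γ, W γ⁻¹ * W γ = 1 := fun γ => by rw [← map_mul, inv_mul_cancel, map_one]
  have hdet : ∀ γ (A : Matrix m m k), (W γ⁻¹ * A * W γ).det = A.det := by
    intro γ A
    have h1 : (W γ⁻¹).det * (W γ).det = 1 := by rw [← det_mul, hWW, det_one]
    rw [det_mul, det_mul]
    linear_combination A.det * h1
  let M : Submodule k (m → k) :=
    { carrier := {y | ∀ A ∈ Z, A *ᵥ y = A.det • y}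
      add_mem' := fun {a b} ha hb A hA => by rw [mulVec_add, ha A hA, hb A hA, smul_add]
      zero_mem' := fun A _ => by rw [mulVec_zero, smul_zero]
      smul_mem' := fun c y hy A hA => by rw [mulVec_smul, hy A hA, smul_comm] }
  rcases hW.2 M (fun g y hy A hA => by
    rw [conj_key, hy _ (hcc g A hA), hdet, mulVec_smul]) with hM | hM
  · exfalso
    have : x ∈ M := h
    rw [hM] at this
    exact hx ((Submodule.mem_bot k).mp this)
  · intro A hA
    have hv : ∀ y : m → k, A *ᵥ y = A.det • y := by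
      intro y
      have hy : y ∈ M := by rw [hM]; trivial
      exact hy A hA
    apply Matrix.toLin'.injective
    ext y : 2
    simp [hv]

end stable

/-- **Rank two, one common eigenvalue.** -/
theorem two_dim [IsAlgClosed k] [CharZero k] (W : Γ →* Matrix (Fin 2) (Fin 2) k)
    (hW : IsIrreducible W)
    (h : ∀ g, (kroneckerMap (· * ·) (V g) (1 : Matrix (Fin 2) (Fin 2) k) -
      kroneckerMap (· * ·) (1 : Matrix n n k) (W g)).det = 0) :
    ∃ (ι : Type) (x : Fintype ι) (y : DecidableEq ι) (U : Γ →* Matrix ι ι k),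
      IsTensorPower V ι x y U ∧ IsSubquotient W U := by
  refine exists_sub V hW (entries_mem V W fun χ hχ => ?_)
  set Z : Set (Matrix (Fin 2) (Fin 2) k) := {A | ∃ χ, Triv V W χ ∧ matW V W χ = A} with hZ
  have hD : (kroneckerMap (· * ·) (gV V W) (1 : Matrix (Fin 2) (Fin 2) (RB V W)) -
      kroneckerMap (· * ·) (1 : Matrix n n (RB V W)) (gW V W)).det = 0 := by
    apply eq_zero_of_evg
    intro g
    rw [AlgHom.map_det, AlgHom.mapMatrix_apply, ← h g]
    congr 1
    ext ⟨i, i'⟩ ⟨j, j'⟩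
    simp only [map_apply, Matrix.sub_apply, kroneckerMap_apply, map_sub, map_mul]
    congr 1
    · congr 1
      rw [Matrix.one_apply, Matrix.one_apply]; split_ifs <;> simp
    · congr 1
      rw [Matrix.one_apply, Matrix.one_apply]; split_ifs <;> simp
  have hgood : Good Z := by
    refine ⟨?_, ?_⟩
    · rintro _ ⟨χ, h1, rfl⟩ _ ⟨ψ, h2, rfl⟩
      exact ⟨pmul V W χ ψ, triv_pmul V W h1 h2, matW_pmul V W χ ψ⟩
    · rintro _ ⟨χ, h1, rfl⟩
      refine ⟨?_, ?_⟩
      · have h2 := congrArg χ hD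
        rw [AlgHom.map_det, AlgHom.mapMatrix_apply, map_zero] at h2
        have h3 : (kroneckerMap (· * ·) (gV V W) (1 : Matrix (Fin 2) (Fin 2) (RB V W)) -
            kroneckerMap (· * ·) (1 : Matrix n n (RB V W)) (gW V W)).map χ =
            kroneckerMap (· * ·) (1 : Matrix n n k) (1 - matW V W χ) := by
          ext ⟨i, i'⟩ ⟨j, j'⟩
          have h4 := congrFun (congrFun (map_gV V W h1) i) j
          simp only [map_apply] at h4
          simp only [map_apply, Matrix.sub_apply, kroneckerMap_apply, map_sub, map_mul, h4]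
          rw [mul_sub]
          congr 1
          · congr 1
            rw [Matrix.one_apply, Matrix.one_apply]; split_ifs <;> simp
          · congr 1
            rw [Matrix.one_apply, Matrix.one_apply]; split_ifs <;> simp
        rw [h3, det_kronecker, det_one, one_pow, one_mul] at h2
        by_contra hne
        exact pow_ne_zero _ hne h2
      · intro h0
        have h5 := congrArg Matrix.det (matW_pinv_mul V W χ)
        rw [det_mul, h0, mul_zero, det_one] at h5
        exact zero_ne_one h5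
  obtain ⟨x, hx, hx'⟩ := concl_of_good hgood
  have hc : ∀ γ, ∀ A ∈ Z, W γ * A * W γ⁻¹ ∈ Z := by
    rintro γ _ ⟨χ, h1, rfl⟩
    exact ⟨pconj V W γ χ, triv_pconj V W γ h1, matW_pconj V W γ χ⟩
  rcases hx' with h1 | h1
  · exact eq_one_of_fixed hW Z hc x hx h1 _ ⟨χ, hχ, rfl⟩
  · -- scalars with eigenvalue one
    have h2 := eq_scalar_of_eig hW Z hc x hx h1 _ ⟨χ, hχ, rfl⟩
    obtain ⟨h3, h4⟩ := hgood.2 _ ⟨χ, hχ, rfl⟩
    set A := matW V W χ with hA
    have h5 : (1 : Matrix (Fin 2) (Fin 2) k) - A = (1 - A.det) • (1 : Matrix (Fin 2) (Fin 2) k) := by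
      rw [sub_smul, one_smul, ← h2]
    rw [h5, det_smul, det_one, mul_one] at h3
    have h6 : 1 - A.det = 0 := pow_eq_zero_iff (by simp) |>.mp h3
    rw [h2, show A.det = 1 by linear_combination -h6, one_smul]

theorem map_aeval_matrix {R S : Type} [CommRing R] [CommRing S] (f : R →+* S) (M : Matrix m m R)
    (p : R[X]) : (aeval M p).map f = aeval (M.map f) (p.map f) := by
  have h1 : (f.mapMatrix : Matrix m m R →+* Matrix m m S) (aeval M p) =
      aeval (f.mapMatrix M) (p.map f) := by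
    rw [aeval_def, aeval_def, hom_eval₂, eval₂_map]
    congr 1
    ext r i j
    simp only [RingHom.comp_apply, RingHom.mapMatrix_apply, map_apply, Matrix.algebraMap_matrix_apply,
      Algebra.algebraMap_self, RingHom.id_apply]
    split_ifs <;> simp
  exact h1

/-- **Any rank, all eigenvalues are common.** -/
theorem all_dim [IsAlgClosed k] [CharZero k] (hW : IsIrreducible W)
    (h : ∀ g, IsNilpotent (aeval (W g) (V g).charpoly)) :
    ∃ (ι : Type) (x : Fintype ι) (y : DecidableEq ι) (U : Γ →* Matrix ι ι k),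
      IsTensorPower V ι x y U ∧ IsSubquotient W U := by
  refine exists_sub V hW (entries_mem V W fun χ0 hχ0 => ?_)
  set Z : Set (Matrix m m k) := {A | ∃ χ, Triv V W χ ∧ matW V W χ = A} with hZ
  set N := Fintype.card m with hN
  have h' : ∀ g, (aeval (W g) (V g).charpoly) ^ N = 0 := by
    intro g
    have h2 := Matrix.isNilpotent_charpoly_sub_pow_of_isNilpotent (h g)
    have h3 := sub_eq_zero.mp h2.eq_zero
    have h4 := Matrix.aeval_self_charpoly (aeval (W g) (V g).charpoly)
    rw [h3, map_pow, aeval_X] at h4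
    exact h4
  have hG : (aeval (gW V W) (gV V W).charpoly) ^ N = 0 := by
    ext1 i j
    apply eq_zero_of_evg
    intro g
    have h5 : ((aeval (gW V W) (gV V W).charpoly) ^ N).map (evg V W g) = 0 := by
      have h6 : ((aeval (gW V W) (gV V W).charpoly) ^ N).map (evg V W g) =
          ((aeval (gW V W) (gV V W).charpoly).map (evg V W g)) ^ N :=
        map_pow ((evg V W g : RB V W →+* k).mapMatrix) _ _
      rw [h6]
      have h7 := map_aeval_matrix (evg V W g : RB V W →+* k) (gW V W) (gV V W).charpoly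
      rw [← Matrix.charpoly_map] at h7
      have h8 : (aeval (gW V W) (gV V W).charpoly).map (evg V W g) =
          aeval (W g) (V g).charpoly := h7
      rw [h8, h' g]
    exact congrFun (congrFun h5 i) j
  have hnil : ∀ χ, Triv V W χ → IsNilpotent (matW V W χ - 1) := by
    intro χ hχ
    have h5 : ((aeval (gW V W) (gV V W).charpoly) ^ N).map χ = 0 := by
      rw [hG]; ext i j; simp
    have h6 : ((aeval (gW V W) (gV V W).charpoly) ^ N).map χ =
        ((aeval (gW V W) (gV V W).charpoly).map χ) ^ N :=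
      map_pow ((χ : RB V W →+* k).mapMatrix) _ _
    have h7 := map_aeval_matrix (χ : RB V W →+* k) (gW V W) (gV V W).charpoly
    rw [← Matrix.charpoly_map] at h7
    have h9 : (gV V W).map (χ : RB V W →+* k) = 1 := map_gV V W hχ
    rw [h9, Matrix.charpoly_one] at h7
    have h8 : (aeval (gW V W) (gV V W).charpoly).map χ =
        (matW V W χ - 1) ^ Fintype.card n := by
      refine Eq.trans h7 ?_
      rw [map_pow, map_sub, aeval_X, map_one]
      rfl
    rw [h6, h8, ← pow_mul] at h5
    exact ⟨_, h5⟩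
  -- the group of the points
  have hinv : ∀ χ, matW V W χ * matW V W (pinv V W χ) = 1 := fun χ =>
    mul_eq_one_comm.mp (matW_pinv_mul V W χ)
  let G : Subgroup (Matrix m m k)ˣ :=
    { carrier := {u | ∃ χ, Triv V W χ ∧ matW V W χ = u}
      mul_mem' := by
        rintro a b ⟨χ, h1, h2⟩ ⟨ψ, h3, h4⟩
        exact ⟨pmul V W χ ψ, triv_pmul V W h1 h3, by rw [matW_pmul, h2, h4]; rfl⟩
      one_mem' := by
        refine ⟨evg V W 1, triv_evg V W, ?_⟩
        ext i j
        exact ent_one W i j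
      inv_mem' := by
        rintro a ⟨χ, h1, h2⟩
        refine ⟨pinv V W χ, triv_pinv V W h1, ?_⟩
        have h3 := matW_pinv_mul V W χ
        rw [h2] at h3
        calc matW V W (pinv V W χ) = matW V W (pinv V W χ) * ((a : Matrix m m k) * (a⁻¹ : (Matrix m m k)ˣ)) := by
              rw [Units.mul_inv, mul_one]
          _ = _ := by rw [← mul_assoc, h3, one_mul] }
  have hmem : ∀ χ, Triv V W χ → ∃ u : G, ((u : (Matrix m m k)ˣ) : Matrix m m k) = matW V W χ := by
    intro χ hχ
    exact ⟨⟨⟨matW V W χ, matW V W (pinv V W χ), hinv χ, matW_pinv_mul V W χ⟩, χ, hχ, rfl⟩, rfl⟩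
  let φ : G →* Module.End k (m → k) :=
    ((Matrix.toLinAlgEquiv' : Matrix m m k ≃ₐ[k] _) : Matrix m m k →* Module.End k (m → k)).comp
      ((Units.coeHom (Matrix m m k)).comp G.subtype)
  have hφ : ∀ u : G, ∀ x : m → k, φ u x = ((u : (Matrix m m k)ˣ) : Matrix m m k) *ᵥ x :=
    fun u x => rfl
  have hne : Nonempty m := hW.1
  obtain ⟨v, hv, hv1⟩ := Pool.Agent.Y759.TS.fixed_vec (Module.finrank k (m → k)) (m → k) φ
    (fun u => by
      obtain ⟨χ, h1, h2⟩ := u.2
      obtain ⟨r, hr⟩ := hnil χ h1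
      refine ⟨r, ?_⟩
      have h3 : φ u - 1 = Matrix.toLinAlgEquiv' (matW V W χ - 1) := by
        rw [h2, map_sub, map_one]; rfl
      rw [h3, ← map_pow, hr, map_zero]) le_rfl
  refine eq_one_of_fixed hW Z ?_ v hv ?_ _ ⟨χ0, hχ0, rfl⟩
  · rintro γ _ ⟨χ, h1, rfl⟩
    exact ⟨pconj V W γ χ, triv_pconj V W γ h1, matW_pconj V W γ χ⟩
  · rintro _ ⟨χ, h1, rfl⟩
    obtain ⟨u, hu⟩ := hmem χ h1
    rw [← hu, ← hφ]
    exact hv1 u

end Pool.Agent.V8H88.GO
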