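import Pool.Agent.V8H88.GO.Defs

/-!
# Subquotients of representations: transitivity, tensor products, eigenvalues
-/

set_option autoImplicit false
set_option linter.unusedSectionVars false

namespace Pool.Agent.V8H88.GO

open Matrix

variable {k Γ : Type} [Field k] [Group Γ]

section basic

variable {m n l : Type} [Fintype m] [DecidableEq m] [Fintype n] [DecidableEq n]
  [Fintype l] [DecidableEq l]

theorem IsSubquotient.refl (W : Γ →* Matrix m m k) : IsSubquotient W W :=
  ⟨⊤, LinearMap.id, fun _ _ _ => ⟨trivial, rfl⟩, by rw [Submodule.map_id]⟩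

theorem IsSubquotient.trans {W : Γ →* Matrix m m k} {U : Γ →* Matrix n n k}
    {U' : Γ →* Matrix l l k} (h : IsSubquotient W U) (h' : IsSubquotient U U') :
    IsSubquotient W U' := by
  obtain ⟨M, f, h1, h2⟩ := h
  obtain ⟨M', f', h1', h2'⟩ := h'
  refine ⟨M' ⊓ M.comap f', f.comp f', ?_, ?_⟩
  · rintro g x ⟨hx, hx'⟩
    obtain ⟨a, b⟩ := h1' g x hx
    obtain ⟨c, d⟩ := h1 g (f' x) hx'
    refine ⟨⟨a, ?_⟩, ?_⟩
    · change f' (U' g *ᵥ x) ∈ M
      rw [b]; exact c
    · rw [LinearMap.comp_apply, LinearMap.comp_apply, b, d]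
  · rw [eq_top_iff]
    rintro w -
    have hw : w ∈ M.map f := by rw [h2]; trivial
    obtain ⟨u, hu, rfl⟩ := hw
    have hu' : u ∈ M'.map f' := by rw [h2']; trivial
    obtain ⟨x, hx, rfl⟩ := hu'
    exact ⟨x, ⟨hx, hu⟩, rfl⟩

/-- tensor product of vectors -/
def vt (x : m → k) (y : n → k) : m × n → k := fun p => x p.1 * y p.2

theorem kron_vt {m' n' : Type} [Fintype m'] [Fintype n'] (A : Matrix m' m k) (B : Matrix n' n k)
    (x : m → k) (y : n → k) : kroneckerMap (· * ·) A B *ᵥ vt x y = vt (A *ᵥ x) (B *ᵥ y) := by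
  funext p
  simp only [mulVec, dotProduct, vt, kroneckerMap_apply]
  rw [Fintype.sum_prod_type, Finset.sum_mul_sum]
  refine Finset.sum_congr rfl fun i _ => Finset.sum_congr rfl fun j _ => ?_
  ring

theorem tensor_vt (U : Γ →* Matrix m m k) (V : Γ →* Matrix n n k) (g : Γ) (x : m → k)
    (y : n → k) : tensor U V g *ᵥ vt x y = vt (U g *ᵥ x) (V g *ᵥ y) := kron_vt _ _ x y

end basic

section tens

variable {m n m' n' : Type} [Fintype m] [DecidableEq m] [Fintype n] [DecidableEq n]
  [Fintype m'] [DecidableEq m'] [Fintype n'] [DecidableEq n']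

theorem IsSubquotient.tensor {W : Γ →* Matrix m m k} {U : Γ →* Matrix n n k}
    {W' : Γ →* Matrix m' m' k} {U' : Γ →* Matrix n' n' k} (h : IsSubquotient W U)
    (h' : IsSubquotient W' U') : IsSubquotient (tensor W W') (GO.tensor U U') := by
  obtain ⟨M, f, h1, h2⟩ := h
  obtain ⟨M', f', h1', h2'⟩ := h'
  let F : (n × n' → k) →ₗ[k] (m × m' → k) :=
    Matrix.toLin' (kroneckerMap (· * ·) (LinearMap.toMatrix' f) (LinearMap.toMatrix' f'))
  have hF : ∀ x y, F (vt x y) = vt (f x) (f' y) := by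
    intro x y
    rw [Matrix.toLin'_apply, kron_vt, LinearMap.toMatrix'_mulVec, LinearMap.toMatrix'_mulVec]
  let N : Submodule k (n × n' → k) := Submodule.span k {z | ∃ x ∈ M, ∃ y ∈ M', z = vt x y}
  refine ⟨N, F, ?_, ?_⟩
  · intro g z hz
    induction hz using Submodule.span_induction with
    | mem z hz =>
      obtain ⟨x, hx, y, hy, rfl⟩ := hz
      obtain ⟨a, b⟩ := h1 g x hx
      obtain ⟨a', b'⟩ := h1' g y hy
      rw [tensor_vt]
      refine ⟨Submodule.subset_span ⟨_, a, _, a', rfl⟩, ?_⟩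
      rw [hF, hF, b, b', tensor_vt]
    | zero => rw [mulVec_zero, map_zero, mulVec_zero]; exact ⟨N.zero_mem, rfl⟩
    | add x y _ _ hx hy =>
      rw [mulVec_add, map_add, map_add, mulVec_add, hx.2, hy.2]
      exact ⟨N.add_mem hx.1 hy.1, rfl⟩
    | smul c x _ hx =>
      rw [mulVec_smul, map_smul, map_smul, mulVec_smul, hx.2]
      exact ⟨N.smul_mem c hx.1, rfl⟩
  · rw [eq_top_iff]
    rintro w -
    have hw : w = ∑ p : m × m', w p • vt (Pi.single p.1 (1 : k)) (Pi.single p.2 (1 : k)) := by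
      funext q
      rw [Finset.sum_apply, Finset.sum_eq_single q]
      · simp [vt]
      · intro p _ hpq
        by_cases h3 : p.1 = q.1
        · have h4 : p.2 ≠ q.2 := fun h4 => hpq (Prod.ext h3 h4)
          simp [vt, Pi.single_apply, h4.symm]
        · simp [vt, Pi.single_apply, Ne.symm h3]
      · intro h; exact absurd (Finset.mem_univ q) h
    rw [hw]
    refine Submodule.sum_mem _ fun p _ => Submodule.smul_mem _ _ ?_
    have hx : (Pi.single p.1 (1 : k) : m → k) ∈ M.map f := by rw [h2]; trivial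
    have hy : (Pi.single p.2 (1 : k) : m' → k) ∈ M'.map f' := by rw [h2']; trivial
    obtain ⟨x, hx, hx'⟩ := hx
    obtain ⟨y, hy, hy'⟩ := hy
    exact ⟨vt x y, Submodule.subset_span ⟨x, hx, y, hy, rfl⟩, by rw [hF, hx', hy']⟩

end tens

section eig

variable {m n : Type} [Fintype m] [DecidableEq m] [Fintype n] [DecidableEq n]

theorem isRoot_charpoly_iff (A : Matrix n n k) (c : k) :
    A.charpoly.IsRoot c ↔ ∃ v : n → k, v ≠ 0 ∧ A *ᵥ v = c • v := by
  rw [Polynomial.IsRoot, Matrix.eval_charpoly, ← exists_mulVec_eq_zero_iff]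
  constructor
  · rintro ⟨v, hv, h⟩
    refine ⟨v, hv, ?_⟩
    rw [sub_mulVec, sub_eq_zero] at h
    rw [← h]
    simp [Matrix.scalar_apply, ← Matrix.smul_one_eq_diagonal, smul_mulVec]
  · rintro ⟨v, hv, h⟩
    refine ⟨v, hv, ?_⟩
    rw [sub_mulVec, sub_eq_zero, h]
    simp [Matrix.scalar_apply, ← Matrix.smul_one_eq_diagonal, smul_mulVec]

/-- Eigenvalues of a subquotient are eigenvalues. -/
theorem IsSubquotient.isRoot {W : Γ →* Matrix m m k} {U : Γ →* Matrix n n k}
    (h : IsSubquotient W U) (g : Γ) (c : k) (hc : (W g).charpoly.IsRoot c) :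
    (U g).charpoly.IsRoot c := by
  obtain ⟨M, f, h1, h2⟩ := h
  by_contra hcon
  rw [isRoot_charpoly_iff] at hc hcon
  push Not at hcon
  obtain ⟨w, hw, hwc⟩ := hc
  -- `U g - c` is injective on `M`
  let T : M →ₗ[k] M :=
    { toFun := fun x => ⟨U g *ᵥ x.1 - c • x.1, M.sub_mem (h1 g x.1 x.2).1 (M.smul_mem c x.2)⟩
      map_add' := fun x y => Subtype.ext (by
        simp only [Submodule.coe_add, mulVec_add, smul_add]; abel)
      map_smul' := fun a x => Subtype.ext (by
        simp only [SetLike.val_smul, mulVec_smul, RingHom.id_apply, smul_sub, smul_comm c a]) }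
  have hT : Function.Injective T := by
    rw [injective_iff_map_eq_zero]
    intro x hx
    by_contra hx0
    have h3 : U g *ᵥ x.1 - c • x.1 = 0 := congrArg Subtype.val hx
    exact hcon x.1 (fun h => hx0 (Subtype.ext h)) (sub_eq_zero.mp h3)
  have hT' : Function.Surjective T := LinearMap.injective_iff_surjective.mp hT
  -- so `W g - c` is surjective
  let S : (m → k) →ₗ[k] (m → k) := Matrix.toLin' (W g) - c • LinearMap.id
  have hS : Function.Surjective S := by
    intro y
    have hy : y ∈ M.map f := by rw [h2]; trivial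
    obtain ⟨x, hx, rfl⟩ := hy
    obtain ⟨z, hz⟩ := hT' ⟨x, hx⟩
    have h4 : U g *ᵥ z.1 - c • z.1 = x := congrArg Subtype.val hz
    refine ⟨f z.1, ?_⟩
    rw [← h4, map_sub, map_smul, (h1 g z.1 z.2).2]
    simp [S]
  have hS' : Function.Injective S := LinearMap.injective_iff_surjective.mpr hS
  apply hw
  apply hS'
  rw [map_zero]
  simp [S, hwc]

/-- Matrices with a common eigenvalue. -/
theorem det_kron_eq_zero (A : Matrix n n k) (B : Matrix m m k) (c : k)
    (hA : A.charpoly.IsRoot c) (hB : B.charpoly.IsRoot c) :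
    (kroneckerMap (· * ·) A (1 : Matrix m m k) - kroneckerMap (· * ·) (1 : Matrix n n k) B).det
      = 0 := by
  rw [isRoot_charpoly_iff] at hA hB
  obtain ⟨x, hx, hxc⟩ := hA
  obtain ⟨y, hy, hyc⟩ := hB
  rw [← exists_mulVec_eq_zero_iff]
  refine ⟨vt x y, ?_, ?_⟩
  · obtain ⟨i, hi⟩ := Function.ne_iff.mp hx
    obtain ⟨j, hj⟩ := Function.ne_iff.mp hy
    exact Function.ne_iff.mpr ⟨(i, j), mul_ne_zero hi hj⟩
  · rw [sub_mulVec, kron_vt, kron_vt, one_mulVec, one_mulVec, hxc, hyc, sub_eq_zero]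
    funext p
    simp only [vt, Pi.smul_apply, smul_eq_mul]
    ring

end eig

end Pool.Agent.V8H88.GO
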