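import Pool.Agent.V8H88.GO.Dns
import Pool.Agent.V8H88.GO.Grp
import Pool.Agent.V8H88.GO.Subq

/-!
# The criterion with one common root, and independence of `p`
-/

set_option autoImplicit false

namespace Pool.Agent.V8H88.GO

open NumberField IsDedekindDomain Filter Topology Polynomial Pool.Agent.W401.Cheb

section roots

variable {E Ω : Type} [Field E] [Field Ω] (ι : E →+* Ω)

theorem exists_common_root [IsAlgClosed Ω] {P Q : E[X]} (h : ¬ IsCoprime P Q) :
    ∃ c : Ω, (P.map ι).IsRoot c ∧ (Q.map ι).IsRoot c := by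
  rw [← isCoprime_map ι, Polynomial.isCoprime_iff_aeval_ne_zero_of_isAlgClosed Ω Ω] at h
  push Not at h
  obtain ⟨c, h1, h2⟩ := h
  refine ⟨c, ?_, ?_⟩
  · simpa [IsRoot, aeval_def, eval₂_eq_eval_map] using h1
  · simpa [IsRoot, aeval_def, eval₂_eq_eval_map] using h2

theorem not_coprime {P Q : E[X]} {c : Ω} (h1 : (P.map ι).IsRoot c) (h2 : (Q.map ι).IsRoot c) :
    ¬ IsCoprime P Q := by
  rw [← isCoprime_map ι]
  rintro ⟨a, b, h⟩
  have h3 := congrArg (Polynomial.eval c) h
  rw [eval_add, eval_mul, eval_mul, h1.eq_zero, h2.eq_zero] at h3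
  simp at h3

end roots

theorem finite_over (K : Type) [Field K] [NumberField K] (p : ℕ) (hp : p.Prime) :
    {v : HeightOneSpectrum (𝓞 K) | (p : 𝓞 K) ∈ v.asIdeal}.Finite := by
  have h0 : Ideal.span {(p : 𝓞 K)} ≠ 0 := by
    intro h
    rw [Ideal.zero_eq_bot, Ideal.span_singleton_eq_bot] at h
    exact hp.ne_zero (by exact_mod_cast h)
  refine (Ideal.finite_factors h0).subset fun v hv => ?_
  change v.asIdeal ∣ Ideal.span {(p : 𝓞 K)}
  rw [Ideal.dvd_span_singleton]
  exact hv

section main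

variable {K : Type} [Field K] [NumberField K] (H : Cohomology K)

/-- Tensor powers of cohomology groups are subquotients of cohomology groups. -/
theorem tensorPower_sub (p : ℕ) [Fact p.Prime] (x : H.Obj) {l : Type} {a : Fintype l}
    {b : DecidableEq l} {U : GK K →* Matrix l l (PadicAlgCl p)}
    (hU : IsTensorPower (H.rep p x) l a b U) : ∃ y, IsSubquotient U (H.rep p y) := by
  induction hU with
  | one =>
    obtain ⟨y, hy⟩ := H.unit
    exact ⟨y, hy p⟩
  | mul _ ih =>
    obtain ⟨y, hy⟩ := ih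
    obtain ⟨z, hz⟩ := H.tensor x y
    exact ⟨z, (IsSubquotient.tensor (IsSubquotient.refl _) hy).trans (hz p)⟩
  | mulDual _ ih =>
    obtain ⟨y, hy⟩ := ih
    obtain ⟨x', hx'⟩ := H.dual x
    obtain ⟨z, hz⟩ := H.tensor x' y
    exact ⟨z, (IsSubquotient.tensor (hx' p) hy).trans (hz p)⟩

variable {E : Type} [Field E] [NumberField E] (f : NewformSystem K E)

theorem rat_comp {Ω : Type} [Field Ω] [CharZero Ω] (ι : E →+* Ω) :
    ι.comp (algebraMap ℚ E) = algebraMap ℚ Ω := RingHom.ext_rat _ _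

/-- **One common root.** -/
theorem one_root (x : H.Obj) (S : Set (HeightOneSpectrum (𝓞 K))) (hS : FrobDense K S)
    (hroot : ∀ v ∈ S, ¬ IsCoprime (f.hecke v) ((H.frob x v).map (algebraMap ℚ E)))
    (p : ℕ) [hpp : Fact p.Prime] (hp : p ∈ f.primes) (ι : E →+* PadicAlgCl p) :
    ∃ (l : Type) (a : Fintype l) (b : DecidableEq l) (U : GK K →* Matrix l l (PadicAlgCl p)),
      IsTensorPower (H.rep p x) l a b U ∧ IsSubquotient (f.rep p ι) U := by
  refine two_dim (H.rep p x) (f.rep p ι) (f.irreducible p ι hp) ?_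
  set T : Set (HeightOneSpectrum (𝓞 K)) :=
    f.bad ∪ H.bad x ∪ {v : HeightOneSpectrum (𝓞 K) | (p : 𝓞 K) ∈ v.asIdeal} with hT
  have hTf : T.Finite :=
    (f.finite_bad.union (H.finite_bad x)).union (finite_over K p hpp.out)
  have hV : Continuous (H.rep p x) := H.continuous_rep p x
  have hW : Continuous (f.rep p ι) := f.continuous_rep p ι hp
  have hF : Continuous fun g : GK K =>
      (Matrix.kroneckerMap (· * ·) (H.rep p x g) (1 : Matrix (Fin 2) (Fin 2) (PadicAlgCl p)) -
      Matrix.kroneckerMap (· * ·)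
        (1 : Matrix (Fin (H.dim x)) (Fin (H.dim x)) (PadicAlgCl p)) (f.rep p ι g)).det := by
    apply Continuous.matrix_det
    apply Continuous.sub
    · refine continuous_matrix fun i j => ?_
      simp only [Matrix.kroneckerMap_apply]
      exact (hV.matrix_elem _ _).mul continuous_const
    · refine continuous_matrix fun i j => ?_
      simp only [Matrix.kroneckerMap_apply]
      exact continuous_const.mul (hW.matrix_elem _ _)
  have key := Continuous.ext_on (hS T hTf) hF (continuous_const (y := (0 : PadicAlgCl p))) (by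
    rintro σ ⟨v, hv, hvT, hσ⟩
    rw [hT, Set.mem_union, Set.mem_union, not_or, not_or] at hvT
    obtain ⟨c, h1, h2⟩ := exists_common_root ι (hroot v hv)
    refine det_kron_eq_zero _ _ c ?_ ?_
    · rw [H.charpoly_frob p x v hvT.1.2 hvT.2 σ hσ]
      rwa [Polynomial.map_map, rat_comp] at h2
    · rw [f.charpoly_frob p ι hp v hvT.1.1 hvT.2 σ hσ]
      exact h1)
  exact fun g => congrFun key g

/-- **Independence of `p`.** -/
theorem independence (p : ℕ) [hpp : Fact p.Prime] (hp : p ∈ f.primes) (ι : E →+* PadicAlgCl p)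
    (x : H.Obj) (hx : IsSubquotient (f.rep p ι) (H.rep p x)) :
    ∃ S, FrobDense K S ∧
      ∀ v ∈ S, ¬ IsCoprime (f.hecke v) ((H.frob x v).map (algebraMap ℚ E)) := by
  set T : Set (HeightOneSpectrum (𝓞 K)) :=
    f.bad ∪ H.bad x ∪ {v : HeightOneSpectrum (𝓞 K) | (p : 𝓞 K) ∈ v.asIdeal} with hT
  have hTf : T.Finite :=
    (f.finite_bad.union (H.finite_bad x)).union (finite_over K p hpp.out)
  refine ⟨Set.univ \ T, (frobDense_univ K).diff hTf, ?_⟩
  rintro v ⟨-, hvT⟩
  rw [hT, Set.mem_union, Set.mem_union, not_or, not_or] at hvT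
  obtain ⟨σ, hσ⟩ := (Pool.Agent.W401.Frob.main K).1 v
  obtain ⟨c, hc⟩ := IsAlgClosed.exists_root (f.rep p ι σ).charpoly (by
    rw [Matrix.charpoly_degree_eq_dim]; simp)
  have h2 := hx.isRoot σ c hc
  rw [f.charpoly_frob p ι hp v hvT.1.1 hvT.2 σ hσ] at hc
  rw [H.charpoly_frob p x v hvT.1.2 hvT.2 σ hσ, ← rat_comp ι, ← Polynomial.map_map] at h2
  exact not_coprime ι hc h2

end main

end Pool.Agent.V8H88.GO
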