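import Pool.Agent.V8H88.GO.Stm
import Pool.Agent.W528.Ord.Dens
import Pool.Agent.W401.Cheb.Frob

/-!
# Sets of primes of upper density one have dense Frobenius elements
-/

set_option autoImplicit false

namespace Pool.Agent.V8H88.GO

open NumberField IsDedekindDomain Filter Topology Pool.Agent.W401.Cheb

variable (K : Type) [Field K] [NumberField K]

theorem count_le {S S' : Set (HeightOneSpectrum (𝓞 K))} (h : S ⊆ S') (N : ℕ) :
    count K S N ≤ count K S' N := by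
  have hf : {v : HeightOneSpectrum (𝓞 K) | Ideal.absNorm v.asIdeal ≤ N ∧ v ∈ S'}.Finite :=
    (Pool.Agent.W352.ChAbs.finite_le (K := K) N).subset (fun v hv => hv.1)
  have hsub : {v : HeightOneSpectrum (𝓞 K) | Ideal.absNorm v.asIdeal ≤ N ∧ v ∈ S} ⊆
      {v : HeightOneSpectrum (𝓞 K) | Ideal.absNorm v.asIdeal ≤ N ∧ v ∈ S'} :=
    fun v hv => ⟨hv.1, h hv.2⟩
  have h1 := Set.ncard_le_ncard hsub hf
  unfold count
  exact_mod_cast h1

theorem count_union (S S' : Set (HeightOneSpectrum (𝓞 K))) (N : ℕ) :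
    count K (S ∪ S') N ≤ count K S N + count K S' N := by
  have h := Set.ncard_union_le {v : HeightOneSpectrum (𝓞 K) | Ideal.absNorm v.asIdeal ≤ N ∧ v ∈ S}
    {v : HeightOneSpectrum (𝓞 K) | Ideal.absNorm v.asIdeal ≤ N ∧ v ∈ S'}
  have e : {v : HeightOneSpectrum (𝓞 K) | Ideal.absNorm v.asIdeal ≤ N ∧ v ∈ S} ∪
    {v : HeightOneSpectrum (𝓞 K) | Ideal.absNorm v.asIdeal ≤ N ∧ v ∈ S'} =
    {v : HeightOneSpectrum (𝓞 K) | Ideal.absNorm v.asIdeal ≤ N ∧ v ∈ S ∪ S'} := by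
    ext v
    simp only [Set.mem_union, Set.mem_ofPred_eq]
    tauto
  rw [e] at h
  exact h

theorem count_compl (S : Set (HeightOneSpectrum (𝓞 K))) (N : ℕ) :
    count K S N + count K Sᶜ N = count K Set.univ N := by
  have hf : ∀ S : Set (HeightOneSpectrum (𝓞 K)),
      {v : HeightOneSpectrum (𝓞 K) | Ideal.absNorm v.asIdeal ≤ N ∧ v ∈ S}.Finite := fun S =>
    (Pool.Agent.W352.ChAbs.finite_le (K := K) N).subset (fun v hv => hv.1)
  have h := Set.ncard_union_eq (s := {v : HeightOneSpectrum (𝓞 K) |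
      Ideal.absNorm v.asIdeal ≤ N ∧ v ∈ S})
    (t := {v : HeightOneSpectrum (𝓞 K) | Ideal.absNorm v.asIdeal ≤ N ∧ v ∈ Sᶜ})
    (by
      rw [Set.disjoint_left]
      rintro v ⟨_, h1⟩ ⟨_, h2⟩
      exact h2 h1) (hf _) (hf _)
  have e : {v : HeightOneSpectrum (𝓞 K) | Ideal.absNorm v.asIdeal ≤ N ∧ v ∈ S} ∪
    {v : HeightOneSpectrum (𝓞 K) | Ideal.absNorm v.asIdeal ≤ N ∧ v ∈ Sᶜ} =
    {v : HeightOneSpectrum (𝓞 K) | Ideal.absNorm v.asIdeal ≤ N ∧ v ∈ Set.univ} := by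
    ext v
    simp only [Set.mem_union, Set.mem_ofPred_eq, Set.mem_compl_iff, Set.mem_univ]
    tauto
  rw [e] at h
  exact h.symm

theorem count_finite {T : Set (HeightOneSpectrum (𝓞 K))} (hT : T.Finite) (N : ℕ) :
    count K T N ≤ T.ncard := by
  have hsub : {v : HeightOneSpectrum (𝓞 K) | Ideal.absNorm v.asIdeal ≤ N ∧ v ∈ T} ⊆ T :=
    fun v hv => hv.2
  have h1 := Set.ncard_le_ncard hsub hT
  unfold count
  exact_mod_cast h1

/-- **Sets of upper density one.** -/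
theorem frobDense_of_density (S : Set (HeightOneSpectrum (𝓞 K))) (hS : UpperDensityOne K S) :
    FrobDense K S := by
  classical
  intro T hT
  rw [dense_iff_inter_open]
  rintro O hO ⟨σ₀, hσ₀⟩
  by_contra hcon
  have hcon' : ∀ v ∈ S, v ∉ T → ∀ σ : GK K, IsFrob v σ → σ ∉ O := by
    intro v hv hvT σ hσ hσO
    exact hcon ⟨σ, hσO, v, hv, hvT, hσ⟩
  have hW : IsOpen {g : GK K | σ₀ * g ∈ O} := hO.preimage (by fun_prop)
  have h1W : (1 : GK K) ∈ {g : GK K | σ₀ * g ∈ O} := by simp [hσ₀]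
  obtain ⟨U, hU⟩ := ProfiniteGrp.exist_openNormalSubgroup_sub_open_nhds_of_one hW h1W
  have hUo : IsOpen (U.toSubgroup : Set (GK K)) := U.isOpen'
  have hUn : U.toSubgroup.Normal := U.isNormal'
  set C : Set (GK K) := {τ | ∃ ρ, ∃ u ∈ U.toSubgroup, ρ⁻¹ * τ * ρ = σ₀ * u} with hC
  have key := Pool.Agent.W528.Ord.chebK K U.toSubgroup hUo C ?_ ?_
  rotate_left
  · rintro τ ⟨ρ, u, hu, h⟩ κ
    refine ⟨κ * ρ, u, hu, ?_⟩
    rw [← h]
    group
  · rintro τ ⟨ρ, u, hu, h⟩ w hw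
    refine ⟨ρ, u * (ρ⁻¹ * w * ρ), U.toSubgroup.mul_mem hu ?_, ?_⟩
    · have := Subgroup.Normal.conj_mem (inferInstance : U.toSubgroup.Normal) w hw ρ⁻¹
      simpa using this
    · calc ρ⁻¹ * (τ * w) * ρ = (ρ⁻¹ * τ * ρ) * (ρ⁻¹ * w * ρ) := by group
        _ = σ₀ * (u * (ρ⁻¹ * w * ρ)) := by rw [h, mul_assoc]
  have key1 := Pool.Agent.W528.Ord.chebK K U.toSubgroup hUo Set.univ
    (fun _ _ _ => Set.mem_univ _) (fun _ _ _ _ => Set.mem_univ _)
  have hfin : Finite (GK K ⧸ U.toSubgroup) := Subgroup.quotient_finite_of_isOpen _ hUo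
  have h6 : 0 < Nat.card (GK K ⧸ U.toSubgroup) := Nat.card_pos
  have hone : (((QuotientGroup.mk : GK K → GK K ⧸ U.toSubgroup) '' Set.univ).ncard : ℝ) /
      (Nat.card (GK K ⧸ U.toSubgroup) : ℝ) = 1 := by
    rw [Set.image_univ, Set.range_eq_univ.mpr (QuotientGroup.mk_surjective), Set.ncard_univ]
    exact div_self (by exact_mod_cast h6.ne')
  rw [hone] at key1
  set δ : ℝ := (((QuotientGroup.mk : GK K → GK K ⧸ U.toSubgroup) '' C).ncard : ℝ) /
      (Nat.card (GK K ⧸ U.toSubgroup) : ℝ) with hδ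
  have hδ0 : 0 < δ := by
    have h5 : 0 < ((QuotientGroup.mk : GK K → GK K ⧸ U.toSubgroup) '' C).ncard := by
      rw [Set.ncard_pos (Set.toFinite _)]
      exact ⟨_, σ₀, ⟨1, 1, U.toSubgroup.one_mem, by simp⟩, rfl⟩
    positivity
  -- the primes with Frobenius in `C`
  have hsub : {v : HeightOneSpectrum (𝓞 K) | ∃ σ ∈ C, IsFrob v σ} ⊆ Sᶜ ∪ T := by
    rintro v ⟨σ, ⟨ρ, u, hu, h⟩, hσ⟩
    by_contra hv
    simp only [Set.mem_union, Set.mem_compl_iff, not_or, not_not] at hv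
    have h1 := (Pool.Agent.W401.Frob.main K).2.2 v σ ρ⁻¹ hσ
    rw [inv_inv, h] at h1
    exact hcon' v hv.1 hv.2 _ h1 (hU hu)
  have h3 : Tendsto (fun n : ℕ => (T.ncard : ℝ) / (Nat.primeCounting n : ℝ)) atTop (𝓝 0) := by
    apply Tendsto.const_div_atTop
    exact tendsto_natCast_atTop_atTop.comp Nat.tendsto_primeCounting
  have e1 := key.eventually (lt_mem_nhds (show 3 / 4 * δ < δ by linarith))
  have e2 := key1.eventually (gt_mem_nhds (show (1 : ℝ) < 2 by norm_num))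
  have e3 := h3.eventually (gt_mem_nhds (show (0 : ℝ) < δ / 8 by linarith))
  obtain ⟨N, hN, a1, a2, a3⟩ := ((hS (δ / 4) (by linarith)).and_eventually
    (e1.and (e2.and e3))).exists
  have b1 : count K {v : HeightOneSpectrum (𝓞 K) | ∃ σ ∈ C, IsFrob v σ} N ≤
      count K Sᶜ N + T.ncard :=
    (count_le K hsub N).trans ((count_union K _ _ N).trans
      (Nat.add_le_add_left (count_finite K hT N) _))
  have b2 := count_compl K S N
  have c1 : (count K {v : HeightOneSpectrum (𝓞 K) | ∃ σ ∈ C, IsFrob v σ} N : ℝ) ≤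
      (count K Sᶜ N : ℝ) + (T.ncard : ℝ) := by exact_mod_cast b1
  have c2 : (count K S N : ℝ) + (count K Sᶜ N : ℝ) = (count K Set.univ N : ℝ) := by
    exact_mod_cast b2
  have c3 : (count K {v : HeightOneSpectrum (𝓞 K) | ∃ σ ∈ C, IsFrob v σ} N : ℝ) ≤
      δ / 4 * (count K Set.univ N : ℝ) + (T.ncard : ℝ) := by linarith
  have d1 : dens (fun v : HeightOneSpectrum (𝓞 K) => ∃ σ ∈ C, IsFrob v σ) N =
      (count K {v : HeightOneSpectrum (𝓞 K) | ∃ σ ∈ C, IsFrob v σ} N : ℝ) /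
        (Nat.primeCounting N : ℝ) := rfl
  have d2 : dens (fun v : HeightOneSpectrum (𝓞 K) => ∃ σ ∈ (Set.univ : Set (GK K)), IsFrob v σ) N =
      (count K Set.univ N : ℝ) / (Nat.primeCounting N : ℝ) := by
    unfold dens count
    congr 2
    apply Nat.card_congr
    refine Equiv.subtypeEquivRight fun v => ?_
    have := (Pool.Agent.W401.Frob.main K).1 v
    simp only [Set.mem_univ, true_and, and_true, this]
  rw [d2] at a2
  rw [d1] at a1
  have c4 : (count K {v : HeightOneSpectrum (𝓞 K) | ∃ σ ∈ C, IsFrob v σ} N : ℝ) /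
        (Nat.primeCounting N : ℝ) ≤
      δ / 4 * ((count K Set.univ N : ℝ) / (Nat.primeCounting N : ℝ)) +
        (T.ncard : ℝ) / (Nat.primeCounting N : ℝ) := by
    rw [← mul_div_assoc, ← add_div]
    exact div_le_div_of_nonneg_right c3 (Nat.cast_nonneg _)
  have c5 : δ / 4 * ((count K Set.univ N : ℝ) / (Nat.primeCounting N : ℝ)) ≤ δ / 4 * 2 :=
    mul_le_mul_of_nonneg_left a2.le (by linarith)
  linarith

theorem frobDense_univ : FrobDense K Set.univ := by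
  apply frobDense_of_density
  intro ε hε
  refine Filter.Frequently.of_forall fun N => ?_
  have : (0 : ℝ) ≤ (count K Set.univ N : ℝ) := Nat.cast_nonneg _
  nlinarith

theorem FrobDense.diff {K : Type} [Field K] [NumberField K] {S T : Set (HeightOneSpectrum (𝓞 K))}
    (hS : FrobDense K S) (hT : T.Finite) : FrobDense K (S \ T) := by
  intro T' hT'
  refine (hS (T ∪ T') (hT.union hT')).mono ?_
  rintro σ ⟨v, hv, hvT, h⟩
  rw [Set.mem_union, not_or] at hvT
  exact ⟨v, ⟨hv, hvT.1⟩, hvT.2, h⟩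

end Pool.Agent.V8H88.GO
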