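import Pool.Agent.V8H88.GO.Ari

/-!
# Compatible systems of any rank
-/

set_option autoImplicit false

namespace Pool.Agent.V8H88.GO

open NumberField IsDedekindDomain Filter Topology Polynomial Pool.Agent.W401.Cheb

/-- A compatible system of rank `n` with coefficients in `E` (for example the one attached to an
algebraic cuspidal automorphic representation of `GL_n`): for all primes `p` in the set `primes` and all
embeddings of `E` into `ℚ̄_p` a continuous irreducible representation of dimension `n` of the absolute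
Galois group of `K`; at almost all primes `v` the characteristic polynomial of the Frobenius elements is
the polynomial `poly v`. -/
structure CompatibleSystem (K E : Type) [Field K] [NumberField K] [Field E] [NumberField E]
    (n : ℕ) where
  primes : Set ℕ
  bad : Set (HeightOneSpectrum (𝓞 K))
  finite_bad : bad.Finite
  poly : HeightOneSpectrum (𝓞 K) → E[X]
  rep : ∀ (p : ℕ) [Fact p.Prime] (_ : E →+* PadicAlgCl p),
    GK K →* Matrix (Fin n) (Fin n) (PadicAlgCl p)
  continuous_rep : ∀ (p : ℕ) [Fact p.Prime] (ι : E →+* PadicAlgCl p), p ∈ primes →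
    Continuous (rep p ι)
  irreducible : ∀ (p : ℕ) [Fact p.Prime] (ι : E →+* PadicAlgCl p), p ∈ primes →
    IsIrreducible (rep p ι)
  charpoly_frob : ∀ (p : ℕ) [Fact p.Prime] (ι : E →+* PadicAlgCl p), p ∈ primes →
    ∀ v : HeightOneSpectrum (𝓞 K), v ∉ bad → (p : 𝓞 K) ∉ v.asIdeal → ∀ σ : GK K, IsFrob v σ →
      (rep p ι σ).charpoly = (poly v).map ι

section cont

variable {k Γ : Type} [Field k] [Group Γ] [TopologicalSpace k] [IsTopologicalRing k] [T2Space k]
  [TopologicalSpace Γ] [IsTopologicalGroup Γ]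
variable {n m : Type} [Fintype n] [DecidableEq n] [Fintype m] [DecidableEq m]
  (V : Γ →* Matrix n n k) (W : Γ →* Matrix m m k)

theorem RB_cont (hV : Continuous V) (hW : Continuous W) (b : Γ → k) (hb : b ∈ RB V W) :
    Continuous b := by
  unfold RB at hb
  induction hb using Algebra.adjoin_induction with
  | mem x hx =>
    rcases hx with (⟨p, rfl⟩ | ⟨p, rfl⟩) | (⟨p, rfl⟩ | ⟨p, rfl⟩)
    · exact hV.matrix_elem _ _
    · exact (hV.comp continuous_inv).matrix_elem _ _
    · exact hW.matrix_elem _ _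
    · exact (hW.comp continuous_inv).matrix_elem _ _
  | algebraMap r => exact continuous_const
  | add x y _ _ hx hy => exact hx.add hy
  | mul x y _ _ hx hy => exact hx.mul hy

/-- **Any rank; all eigenvalues are common on a dense set.** -/
theorem all_dim_dense [IsAlgClosed k] [CharZero k] (hV : Continuous V) (hW : Continuous W)
    (hirr : IsIrreducible W) (D : Set Γ) (hD : Dense D)
    (h : ∀ g ∈ D, IsNilpotent (aeval (W g) (V g).charpoly)) :
    ∃ (ι : Type) (x : Fintype ι) (y : DecidableEq ι) (U : Γ →* Matrix ι ι k),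
      IsTensorPower V ι x y U ∧ IsSubquotient W U := by
  refine all_dim V W hirr fun g => ⟨Fintype.card m, ?_⟩
  have h' : ∀ g ∈ D, (aeval (W g) (V g).charpoly) ^ Fintype.card m = 0 := by
    intro g hg
    have h2 := Matrix.isNilpotent_charpoly_sub_pow_of_isNilpotent (h g hg)
    have h3 := sub_eq_zero.mp h2.eq_zero
    have h4 := Matrix.aeval_self_charpoly (aeval (W g) (V g).charpoly)
    rw [h3, map_pow, aeval_X] at h4
    exact h4
  have hmap : ∀ g, ((aeval (gW V W) (gV V W).charpoly) ^ Fintype.card m).map (evg V W g) =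
      (aeval (W g) (V g).charpoly) ^ Fintype.card m := by
    intro g
    have h6 : ((aeval (gW V W) (gV V W).charpoly) ^ Fintype.card m).map (evg V W g) =
        ((aeval (gW V W) (gV V W).charpoly).map (evg V W g)) ^ Fintype.card m :=
      map_pow ((evg V W g : RB V W →+* k).mapMatrix) _ _
    rw [h6]
    have h7 := map_aeval_matrix (evg V W g : RB V W →+* k) (gW V W) (gV V W).charpoly
    rw [← Matrix.charpoly_map] at h7
    have h8 : (aeval (gW V W) (gV V W).charpoly).map (evg V W g) =
        aeval (W g) (V g).charpoly := h7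
    rw [h8]
  rw [← hmap g]
  ext i j
  set b : RB V W := ((aeval (gW V W) (gV V W).charpoly) ^ Fintype.card m) i j with hb
  have hc : Continuous b.1 := RB_cont V W hV hW b.1 b.2
  have key := Continuous.ext_on hD hc (continuous_const (y := (0 : k))) (by
    intro g hg
    have h9 := hmap g
    rw [h' g hg] at h9
    exact congrFun (congrFun h9 i) j)
  exact congrFun key g

end cont

/-- If all roots of `P` are roots of `Q` then `P` divides a power of `Q`. -/
theorem dvd_pow_of_roots {E Ω : Type} [Field E] [Field Ω] [IsAlgClosed Ω] (ι : E →+* Ω)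
    {P Q : E[X]} (hP : P ≠ 0) (h : ∀ c, (P.map ι).IsRoot c → (Q.map ι).IsRoot c) :
    ∃ N, P ∣ Q ^ N := by
  have hmem : Q ∈ (Ideal.span {P}).radical := by
    rw [Ideal.radical_eq_sInf, Submodule.mem_sInf]
    rintro 𝔮 ⟨hP𝔮, h𝔮⟩
    obtain ⟨R, rfl⟩ := (IsPrincipalIdealRing.principal 𝔮).1
    rw [← Ideal.submodule_span_eq] at *
    have hRP : R ∣ P := by
      have : P ∈ Ideal.span {R} := hP𝔮 (Ideal.mem_span_singleton_self P)
      exact Ideal.mem_span_singleton.mp this
    have hR0 : R ≠ 0 := by rintro rfl; exact hP (zero_dvd_iff.mp hRP)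
    have hRp : Prime R := (Ideal.span_singleton_prime hR0).mp h𝔮
    have hdeg : (R.map ι).degree ≠ 0 := by
      rw [degree_map]
      intro h0
      exact hRp.not_isUnit (Polynomial.isUnit_iff_degree_eq_zero.mpr h0)
    obtain ⟨c, hc⟩ := IsAlgClosed.exists_root (R.map ι) hdeg
    obtain ⟨T, rfl⟩ := hRP
    have hcP : ((R * T).map ι).IsRoot c := by
      rw [Polynomial.map_mul, IsRoot, eval_mul, hc.eq_zero, zero_mul]
    have hcQ := h c hcP
    have hnc := not_coprime ι hc hcQ
    have : R ∣ Q := by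
      by_contra hd
      exact hnc ((hRp.irreducible.coprime_iff_not_dvd).mpr hd)
    exact Ideal.mem_span_singleton.mpr this
  obtain ⟨N, hN⟩ := hmem
  exact ⟨N, Ideal.mem_span_singleton.mp hN⟩

section main

variable {K : Type} [Field K] [NumberField K] (H : Cohomology K)
variable {E : Type} [Field E] [NumberField E] {n : ℕ} (f : CompatibleSystem K E n)

/-- **All roots are common.** -/
theorem all_roots (x : H.Obj) (S : Set (HeightOneSpectrum (𝓞 K))) (hS : FrobDense K S)
    (hroot : ∀ v ∈ S, ∃ N : ℕ, f.poly v ∣ ((H.frob x v).map (algebraMap ℚ E)) ^ N)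
    (p : ℕ) [hpp : Fact p.Prime] (hp : p ∈ f.primes) (ι : E →+* PadicAlgCl p) :
    ∃ (l : Type) (a : Fintype l) (b : DecidableEq l) (U : GK K →* Matrix l l (PadicAlgCl p)),
      IsTensorPower (H.rep p x) l a b U ∧ IsSubquotient (f.rep p ι) U := by
  set T : Set (HeightOneSpectrum (𝓞 K)) :=
    f.bad ∪ H.bad x ∪ {v : HeightOneSpectrum (𝓞 K) | (p : 𝓞 K) ∈ v.asIdeal} with hT
  have hTf : T.Finite :=
    (f.finite_bad.union (H.finite_bad x)).union (finite_over K p hpp.out)
  refine all_dim_dense (H.rep p x) (f.rep p ι) (H.continuous_rep p x) (f.continuous_rep p ι hp)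
    (f.irreducible p ι hp) _ (hS T hTf) ?_
  rintro σ ⟨v, hv, hvT, hσ⟩
  rw [hT, Set.mem_union, Set.mem_union, not_or, not_or] at hvT
  obtain ⟨N, hN⟩ := hroot v hv
  have h1 := H.charpoly_frob p x v hvT.1.2 hvT.2 σ hσ
  have h2 := f.charpoly_frob p ι hp v hvT.1.1 hvT.2 σ hσ
  have h3 := Polynomial.map_dvd ι hN
  rw [Polynomial.map_pow, Polynomial.map_map, rat_comp, ← h1, ← h2] at h3
  obtain ⟨T', hT'⟩ := h3
  refine ⟨N, ?_⟩
  rw [← map_pow, hT', map_mul, Matrix.aeval_self_charpoly, zero_mul]

/-- **Independence of `p`.** -/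
theorem independence' (p : ℕ) [hpp : Fact p.Prime] (hp : p ∈ f.primes) (ι : E →+* PadicAlgCl p)
    (x : H.Obj) (hx : IsSubquotient (f.rep p ι) (H.rep p x)) :
    ∃ S, FrobDense K S ∧
      ∀ v ∈ S, ∃ N : ℕ, f.poly v ∣ ((H.frob x v).map (algebraMap ℚ E)) ^ N := by
  set T : Set (HeightOneSpectrum (𝓞 K)) :=
    f.bad ∪ H.bad x ∪ {v : HeightOneSpectrum (𝓞 K) | (p : 𝓞 K) ∈ v.asIdeal} with hT
  have hTf : T.Finite :=
    (f.finite_bad.union (H.finite_bad x)).union (finite_over K p hpp.out)
  refine ⟨Set.univ \ T, (frobDense_univ K).diff hTf, ?_⟩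
  rintro v ⟨-, hvT⟩
  rw [hT, Set.mem_union, Set.mem_union, not_or, not_or] at hvT
  obtain ⟨σ, hσ⟩ := (Pool.Agent.W401.Frob.main K).1 v
  have h1 := H.charpoly_frob p x v hvT.1.2 hvT.2 σ hσ
  have h2 := f.charpoly_frob p ι hp v hvT.1.1 hvT.2 σ hσ
  refine dvd_pow_of_roots ι ?_ fun c hc => ?_
  · rintro h0
    rw [h0, Polynomial.map_zero] at h2
    exact (Matrix.charpoly_monic _).ne_zero h2
  · rw [← h2] at hc
    have h3 := hx.isRoot σ c hc
    rw [h1, ← rat_comp ι, ← Polynomial.map_map] at h3
    exact h3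

end main

end Pool.Agent.V8H88.GO
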