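import Pool.Agent.V8H88.GO.Defs
import Pool.Agent.W401.Cheb.AbsDefs

/-!
# Realizations of smooth projective varieties and two-dimensional compatible systems
-/

set_option autoImplicit false

namespace Pool.Agent.V8H88.GO

open NumberField IsDedekindDomain Filter Polynomial Pool.Agent.W401.Cheb

section density

variable (K : Type) [Field K] [NumberField K]

/-- the number of primes in `S` of norm at most `N` -/
noncomputable def count (S : Set (HeightOneSpectrum (𝓞 K))) (N : ℕ) : ℕ :=
  Nat.card {v : HeightOneSpectrum (𝓞 K) // Ideal.absNorm v.asIdeal ≤ N ∧ v ∈ S}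

/-- The set `S` of primes has upper natural density one. -/
def UpperDensityOne (S : Set (HeightOneSpectrum (𝓞 K))) : Prop :=
  ∀ ε : ℝ, 0 < ε → ∃ᶠ N : ℕ in atTop, (1 - ε) * (count K Set.univ N : ℝ) ≤ (count K S N : ℝ)

/-- The Frobenius elements at the primes in `S`, outside any finite set of primes, are dense in the
absolute Galois group. -/
def FrobDense (S : Set (HeightOneSpectrum (𝓞 K))) : Prop :=
  ∀ T : Set (HeightOneSpectrum (𝓞 K)), T.Finite → Dense {σ : GK K | ∃ v ∈ S, v ∉ T ∧ IsFrob v σ}

end density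

/-- Representations of the absolute Galois group of `K` on spaces over `ℚ̄_p`, for all primes `p`, with
the following properties of the étale cohomology of smooth projective varieties `X` over `K`. The
elements of `Obj` stand for the triples `(X, i, j)`, and `rep p (X, i, j)` for `H^i(X, ℚ̄_p)(j)`.
`tensor` is the Künneth formula, `dual` is Poincaré duality, `charpoly_frob` is Deligne's theorem. -/
structure Cohomology (K : Type) [Field K] [NumberField K] where
  Obj : Type
  dim : Obj → ℕ
  rep : ∀ (p : ℕ) [Fact p.Prime] (x : Obj),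
    GK K →* Matrix (Fin (dim x)) (Fin (dim x)) (PadicAlgCl p)
  continuous_rep : ∀ (p : ℕ) [Fact p.Prime] (x : Obj), Continuous (rep p x)
  unit : ∃ x, ∀ (p : ℕ) [Fact p.Prime],
    IsSubquotient (trivialRep (PadicAlgCl p) (GK K)) (rep p x)
  tensor : ∀ x y, ∃ z, ∀ (p : ℕ) [Fact p.Prime],
    IsSubquotient (tensor (rep p x) (rep p y)) (rep p z)
  dual : ∀ x, ∃ y, ∀ (p : ℕ) [Fact p.Prime], IsSubquotient (dual (rep p x)) (rep p y)
  bad : Obj → Set (HeightOneSpectrum (𝓞 K))
  finite_bad : ∀ x, (bad x).Finite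
  frob : Obj → HeightOneSpectrum (𝓞 K) → ℚ[X]
  charpoly_frob : ∀ (p : ℕ) [Fact p.Prime] (x : Obj) (v : HeightOneSpectrum (𝓞 K)), v ∉ bad x →
    (p : 𝓞 K) ∉ v.asIdeal → ∀ σ : GK K, IsFrob v σ →
      (rep p x σ).charpoly = (frob x v).map (algebraMap ℚ (PadicAlgCl p))

/-- The representation `ρ` arises from étale cohomology: it is a subquotient of some
`H^i(X, ℚ̄_p)(j)`. -/
def Cohomology.Arises {K : Type} [Field K] [NumberField K] (H : Cohomology K) (p : ℕ)
    [Fact p.Prime] {n : ℕ} (ρ : GK K →* Matrix (Fin n) (Fin n) (PadicAlgCl p)) : Prop :=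
  ∃ x : H.Obj, IsSubquotient ρ (H.rep p x)

/-- The Galois representations of a newform with coefficients in `E`: for all primes `p` in the set
`primes` and all embeddings of `E` into `ℚ̄_p` a continuous irreducible representation of dimension two;
at almost all primes `v` the characteristic polynomial of the Frobenius elements is the Hecke polynomial
of `v`. -/
structure NewformSystem (K E : Type) [Field K] [NumberField K] [Field E] [NumberField E] where
  primes : Set ℕ
  bad : Set (HeightOneSpectrum (𝓞 K))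
  finite_bad : bad.Finite
  hecke : HeightOneSpectrum (𝓞 K) → E[X]
  rep : ∀ (p : ℕ) [Fact p.Prime] (_ : E →+* PadicAlgCl p),
    GK K →* Matrix (Fin 2) (Fin 2) (PadicAlgCl p)
  continuous_rep : ∀ (p : ℕ) [Fact p.Prime] (ι : E →+* PadicAlgCl p), p ∈ primes →
    Continuous (rep p ι)
  irreducible : ∀ (p : ℕ) [Fact p.Prime] (ι : E →+* PadicAlgCl p), p ∈ primes →
    IsIrreducible (rep p ι)
  charpoly_frob : ∀ (p : ℕ) [Fact p.Prime] (ι : E →+* PadicAlgCl p), p ∈ primes →
    ∀ v : HeightOneSpectrum (𝓞 K), v ∉ bad → (p : 𝓞 K) ∉ v.asIdeal → ∀ σ : GK K, IsFrob v σ →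
      (rep p ι σ).charpoly = (hecke v).map ι

end Pool.Agent.V8H88.GO
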