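import Mathlib

/-!
# Functions which are determined by the points, and localization at minimal primes
-/

set_option autoImplicit false

namespace Pool.Agent.V8H88.GO

open Polynomial TensorProduct

/-- The minimal polynomial of an element of a reduced algebra over a field is squarefree or zero. -/
theorem sqf_minpoly {K L : Type} [Field K] [CommRing L] [Algebra K L] [IsReduced L] (β : L)
    (h0 : minpoly K β ≠ 0) : Squarefree (minpoly K β) := by
  rintro x ⟨g, hg⟩
  have hx0 : x ≠ 0 := by rintro rfl; exact h0 (by rw [hg]; ring)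
  have hg0 : g ≠ 0 := by rintro rfl; exact h0 (by rw [hg]; ring)
  have h1 : aeval β (x * g) = 0 := by
    have h2 : (aeval β (x * g)) ^ 2 = 0 := by
      rw [← map_pow, show (x * g) ^ 2 = (x * x * g) * g by ring, ← hg, map_mul, minpoly.aeval,
        zero_mul]
    exact pow_eq_zero_iff (two_ne_zero) |>.mp h2
  obtain ⟨q, hq⟩ := minpoly.dvd K β h1
  rw [hg] at hq
  have h3 : x * g * 1 = x * g * (x * q) := by rw [mul_one]; nth_rw 1 [hq]; ring
  have h4 := mul_left_cancel₀ (mul_ne_zero hx0 hg0) h3
  exact IsUnit.of_mul_eq_one _ h4.symm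

/-- If `β ⊗ 1 - 1 ⊗ β` is nilpotent in `L ⊗ L`, for a nonzero reduced algebra `L` over a field `K` of
characteristic zero, then `β` is in `K`. -/
theorem mem_of_nilpotent {K L : Type} [Field K] [CharZero K] [CommRing L] [Algebra K L]
    [IsReduced L] [Nontrivial L] (β : L)
    (hn : IsNilpotent ((β ⊗ₜ[K] (1 : L)) - (1 : L) ⊗ₜ[K] β)) :
    ∃ c : K, algebraMap K L c = β := by
  set f := minpoly K β with hf
  let j : AdjoinRoot f →ₐ[K] L := AdjoinRoot.liftAlgHom f (Algebra.ofId K L) β
    (by simpa [hf, Polynomial.aeval_def] using minpoly.aeval K β)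
  have hj : Function.Injective j := by
    rw [injective_iff_map_eq_zero]
    intro x hx
    obtain ⟨p, rfl⟩ := AdjoinRoot.mk_surjective x
    rw [AdjoinRoot.mk_eq_zero]
    apply minpoly.dvd
    simpa [j, Polynomial.aeval_def, Algebra.ofId] using hx
  have hjr : j (AdjoinRoot.root f) = β := by simp [j]
  have hjj : Function.Injective (Algebra.TensorProduct.map j j) := by
    have h1 : Function.Injective (TensorProduct.map j.toLinearMap j.toLinearMap) :=
      TensorProduct.map_injective_of_flat_flat _ _ hj hj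
    exact h1
  set y : AdjoinRoot f ⊗[K] AdjoinRoot f :=
    AdjoinRoot.root f ⊗ₜ 1 - 1 ⊗ₜ AdjoinRoot.root f with hy
  have hyn : IsNilpotent y := by
    obtain ⟨N, hN⟩ := hn
    refine ⟨N, hjj ?_⟩
    rw [map_pow, map_zero, hy, map_sub, Algebra.TensorProduct.map_tmul,
      Algebra.TensorProduct.map_tmul, map_one, hjr, hN]
  have key : ∀ (Ω : Type) [Field Ω] [Algebra K Ω] (a b : Ω), aeval a f = 0 → aeval b f = 0 →
      a = b := by
    intro Ω _ _ a b ha hb
    let A1 : AdjoinRoot f →ₐ[K] Ω := AdjoinRoot.liftAlgHom f (Algebra.ofId K Ω) a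
      (by simpa [Polynomial.aeval_def] using ha)
    let B1 : AdjoinRoot f →ₐ[K] Ω := AdjoinRoot.liftAlgHom f (Algebra.ofId K Ω) b
      (by simpa [Polynomial.aeval_def] using hb)
    let T : AdjoinRoot f ⊗[K] AdjoinRoot f →ₐ[K] Ω :=
      Algebra.TensorProduct.lift A1 B1 (fun _ _ => Commute.all _ _)
    have h2 : T y = a - b := by simp [T, hy, A1, B1]
    have h3 : IsNilpotent (T y) := hyn.map T
    rw [h2] at h3
    exact sub_eq_zero.mp h3.eq_zero
  by_cases h0 : f = 0
  · exfalso
    have := key K 0 1 (by simp [h0]) (by simp [h0])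
    exact zero_ne_one this
  · have hmon : f.Monic := minpoly.monic (by
      by_contra hc
      exact h0 (minpoly.eq_zero hc))
    have hint : IsIntegral K β := by
      by_contra hc
      exact h0 (minpoly.eq_zero hc)
    have hsq : Squarefree f := sqf_minpoly β h0
    have hsep : f.Separable := PerfectField.separable_iff_squarefree.mpr hsq
    have hpos : 0 < f.degree := minpoly.degree_pos hint
    have hcard := Polynomial.card_rootSet_eq_natDegree (K := AlgebraicClosure K) hsep
      (IsAlgClosed.splits _)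
    have hle : Fintype.card (f.rootSet (AlgebraicClosure K)) ≤ 1 := by
      rw [Fintype.card_le_one_iff]
      rintro ⟨a, ha⟩ ⟨b, hb⟩
      rw [Polynomial.mem_rootSet] at ha hb
      exact Subtype.ext (key _ a b ha.2 hb.2)
    have hdeg : f.natDegree = 1 := by
      have h5 : 0 < f.natDegree := Polynomial.natDegree_pos_iff_degree_pos.mpr hpos
      omega
    have h6 : f = X + C (f.coeff 0) := by
      have := Polynomial.eq_X_add_C_of_natDegree_le_one (p := f) (by omega)
      have h7 : f.coeff 1 = 1 := by
        have := hmon.coeff_natDegree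
        rwa [hdeg] at this
      rw [h7, C_1, one_mul] at this
      exact this
    refine ⟨-f.coeff 0, ?_⟩
    have h8 : aeval β f = 0 := minpoly.aeval K β
    rw [h6, map_add, aeval_X, aeval_C] at h8
    rw [map_neg]
    exact (eq_neg_of_add_eq_zero_left h8).symm


theorem mem_of_nilpotent' {K L : Type} [CommRing K] (hK : IsField K) [CharZero K] [CommRing L]
    [Algebra K L] [IsReduced L] [Nontrivial L] (β : L)
    (hn : IsNilpotent ((β ⊗ₜ[K] (1 : L)) - (1 : L) ⊗ₜ[K] β)) :
    ∃ c : K, algebraMap K L c = β := by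
  let _ : Field K := hK.toField
  exact mem_of_nilpotent β hn


/-- Points of an affine algebra over an algebraically closed field. -/
theorem exists_point {k R : Type} [Field k] [IsAlgClosed k] [CommRing R] [Algebra k R]
    [Algebra.FiniteType k R] (M : Ideal R) (hM : M.IsMaximal) :
    ∃ θ : R →ₐ[k] k, ∀ x, θ x = 0 ↔ x ∈ M := by
  let _ := Ideal.Quotient.field M
  have hfin := finite_of_finite_type_of_isJacobsonRing k (R ⧸ M)
  have hint : Algebra.IsIntegral k (R ⧸ M) := inferInstance
  have hb : Function.Bijective (algebraMap k (R ⧸ M)) :=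
    IsAlgClosed.algebraMap_bijective_of_isIntegral
  let e : k ≃ₐ[k] (R ⧸ M) := AlgEquiv.ofBijective (Algebra.ofId k (R ⧸ M)) hb
  refine ⟨e.symm.toAlgHom.comp (Ideal.Quotient.mkₐ k M), fun x => ?_⟩
  have h1 : (e.symm.toAlgHom.comp (Ideal.Quotient.mkₐ k M)) x = e.symm (Ideal.Quotient.mk M x) :=
    rfl
  rw [h1, EmbeddingLike.map_eq_zero_iff, Ideal.Quotient.eq_zero_iff_mem]

theorem nilp_of_points {k R : Type} [Field k] [IsAlgClosed k] [CommRing R] [Algebra k R]
    [Algebra.FiniteType k R] (x : R) (h : ∀ θ : R →ₐ[k] k, θ x = 0) : IsNilpotent x := by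
  have hJ : IsJacobsonRing R := isJacobsonRing_of_finiteType (A := k)
  have h1 : x ∈ (⊥ : Ideal R).jacobson := by
    refine Submodule.mem_sInf.mpr ?_
    rintro M ⟨-, hM⟩
    obtain ⟨θ, hθ⟩ := exists_point (k := k) M hM
    exact (hθ x).mp (h θ)
  rw [← Ideal.radical_eq_jacobson] at h1
  exact h1

/-- The localization of a reduced ring at a minimal prime is a field. -/
theorem isField_of_minimal {A : Type} [CommRing A] [IsReduced A] (P : Ideal A)
    (hP : P ∈ minimalPrimes A) [P.IsPrime] : IsField (Localization.AtPrime P) := by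
  have hs := IsLocalization.subsingleton_primeSpectrum_of_mem_minimalPrimes P hP
    (Localization.AtPrime P)
  refine ⟨⟨0, 1, zero_ne_one⟩, mul_comm, fun {a} ha => ?_⟩
  by_contra hc
  have hu : ¬ IsUnit a := fun hu => hc (by obtain ⟨b, hb⟩ := hu.exists_right_inv; exact ⟨b, hb⟩)
  obtain ⟨M, hM, haM⟩ := exists_max_ideal_of_mem_nonunits hu
  apply ha
  apply IsReduced.eq_zero
  rw [← mem_nilradical, nilradical_eq_sInf, Submodule.mem_sInf]
  intro Q hQ
  have : (⟨Q, hQ⟩ : PrimeSpectrum (Localization.AtPrime P)) = ⟨M, hM.isPrime⟩ :=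
    Subsingleton.elim _ _
  have h2 : Q = M := congrArg PrimeSpectrum.asIdeal this
  rw [h2]; exact haM

/-- An element of `B` on which all points of `B` agree which agree on `A` is locally in `A` at the
minimal primes. -/
theorem exists_denom {k A B : Type} [Field k] [IsAlgClosed k] [CharZero k] [CommRing A] [CommRing B]
    [Algebra k A] [Algebra k B] [Algebra A B] [IsScalarTower k A B] [Algebra.FiniteType k B]
    [IsReduced A] [IsReduced B] (hinj : Function.Injective (algebraMap A B)) (b : B)
    (hb : ∀ φ ψ : B →ₐ[k] k, (∀ a, φ (algebraMap A B a) = ψ (algebraMap A B a)) → φ b = ψ b)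
    (P : Ideal A) (hP : P ∈ minimalPrimes A) :
    ∃ s a : A, s ∉ P ∧ algebraMap A B s * b = algebraMap A B a := by
  have hPp : P.IsPrime := hP.1.1
  have hFA : Algebra.FiniteType A B := Algebra.FiniteType.of_restrictScalars_finiteType k A B
  have hFR : Algebra.FiniteType k (B ⊗[A] B) :=
    Algebra.FiniteType.trans (S := B) inferInstance inferInstance
  have hx : IsNilpotent ((b ⊗ₜ[A] (1 : B)) - (1 : B) ⊗ₜ[A] b) := by
    apply nilp_of_points (k := k)
    intro θ
    rw [map_sub, sub_eq_zero]
    have h1 := hb (θ.comp ((Algebra.TensorProduct.includeLeft : B →ₐ[A] B ⊗[A] B).restrictScalars k))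
      (θ.comp ((Algebra.TensorProduct.includeRight : B →ₐ[A] B ⊗[A] B).restrictScalars k))
      (fun a => by
        simp only [AlgHom.coe_comp, Function.comp_apply, AlgHom.restrictScalars_apply]
        congr 1
        rw [AlgHom.commutes, AlgHom.commutes])
    simpa using h1
  let K := Localization.AtPrime P
  let L := Localization (Algebra.algebraMapSubmonoid B P.primeCompl)
  have hK : IsField K := isField_of_minimal P hP
  have hKL : Function.Injective (algebraMap K L) :=
    localizationAlgebra_injective (M := P.primeCompl) (S := B) K L hinj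
  have hnt : Nontrivial L := by
    have : Nontrivial K := hK.nontrivial
    exact hKL.nontrivial
  have hch : CharZero K := by
    have : Nontrivial K := hK.nontrivial
    have h1 : Function.Injective ((algebraMap A K).comp (algebraMap k A)) := RingHom.injective _
    exact charZero_of_injective_ringHom h1
  set β : L := algebraMap B L b with hβ
  have hn : IsNilpotent ((β ⊗ₜ[K] (1 : L)) - (1 : L) ⊗ₜ[K] β) := by
    let f1 : B →ₐ[A] L ⊗[K] L :=
      ((Algebra.TensorProduct.includeLeft : L →ₐ[K] L ⊗[K] L).restrictScalars A).comp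
        (IsScalarTower.toAlgHom A B L)
    let f2 : B →ₐ[A] L ⊗[K] L :=
      ((Algebra.TensorProduct.includeRight : L →ₐ[K] L ⊗[K] L).restrictScalars A).comp
        (IsScalarTower.toAlgHom A B L)
    let F : B ⊗[A] B →ₐ[A] L ⊗[K] L := Algebra.TensorProduct.lift f1 f2 (fun _ _ => Commute.all _ _)
    have h2 := hx.map F
    simpa [F, f1, f2, hβ] using h2
  obtain ⟨c, hc⟩ := mem_of_nilpotent' hK β hn
  obtain ⟨a, s, rfl⟩ := IsLocalization.exists_mk'_eq P.primeCompl c
  rw [IsLocalization.algebraMap_mk' (M := P.primeCompl) B K L, hβ,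
    IsLocalization.mk'_eq_iff_eq_mul, ← map_mul] at hc
  obtain ⟨⟨t, ht⟩, h3⟩ := (IsLocalization.eq_iff_exists
    (Algebra.algebraMapSubmonoid B P.primeCompl) L).mp hc
  obtain ⟨u, hu, rfl⟩ := ht
  refine ⟨u * s, u * a, fun h => ?_, ?_⟩
  · rcases hPp.mem_or_mem h with h | h
    · exact hu h
    · exact s.2 h
  · rw [map_mul, map_mul, h3]
    ring

end Pool.Agent.V8H88.GO
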