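import Mathlib

/-!
# Matrix representations of a group: subquotients, tensor products, duals
-/

set_option autoImplicit false

namespace Pool.Agent.V8H88.GO

open Matrix

variable {k Γ : Type} [Field k] [Group Γ]

/-- The representation `W` is isomorphic to a subquotient of the representation `U`: there are an
invariant subspace `M` of `U` and a linear map `f` whose restriction to `M` is equivariant and has the
image `W`. -/
def IsSubquotient {m n : Type} [Fintype m] [DecidableEq m] [Fintype n] [DecidableEq n]
    (W : Γ →* Matrix m m k) (U : Γ →* Matrix n n k) : Prop :=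
  ∃ (M : Submodule k (n → k)) (f : (n → k) →ₗ[k] (m → k)),
    (∀ g, ∀ x ∈ M, U g *ᵥ x ∈ M ∧ f (U g *ᵥ x) = W g *ᵥ f x) ∧ M.map f = ⊤

/-- The representation `W` is irreducible. -/
def IsIrreducible {m : Type} [Fintype m] [DecidableEq m] (W : Γ →* Matrix m m k) : Prop :=
  Nonempty m ∧ ∀ M : Submodule k (m → k), (∀ g, ∀ x ∈ M, W g *ᵥ x ∈ M) → M = ⊥ ∨ M = ⊤

/-- the tensor product of two representations -/
def tensor {m n : Type} [Fintype m] [DecidableEq m] [Fintype n] [DecidableEq n]
    (U : Γ →* Matrix m m k) (V : Γ →* Matrix n n k) : Γ →* Matrix (m × n) (m × n) k where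
  toFun g := kroneckerMap (· * ·) (U g) (V g)
  map_one' := by simp
  map_mul' g h := by rw [map_mul, map_mul, mul_kronecker_mul]

/-- the dual representation -/
def dual {m : Type} [Fintype m] [DecidableEq m] (U : Γ →* Matrix m m k) : Γ →* Matrix m m k where
  toFun g := (U g⁻¹)ᵀ
  map_one' := by simp
  map_mul' g h := by rw [_root_.mul_inv_rev, map_mul, transpose_mul]

/-- the trivial representation of dimension one -/
def trivialRep (k Γ : Type) [Field k] [Group Γ] : Γ →* Matrix Unit Unit k := 1

/-- `IsTensorPower V U`: the representation `U` is a tensor product of some copies of `V` and of the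
dual of `V` (possibly none). -/
inductive IsTensorPower {n : Type} [Fintype n] [DecidableEq n] (V : Γ →* Matrix n n k) :
    (ι : Type) → (_ : Fintype ι) → (_ : DecidableEq ι) → (Γ →* Matrix ι ι k) → Prop
  | one : IsTensorPower V Unit _ _ (trivialRep k Γ)
  | mul {ι : Type} {a : Fintype ι} {b : DecidableEq ι} {U : Γ →* Matrix ι ι k} :
      IsTensorPower V ι a b U → IsTensorPower V (n × ι) _ _ (tensor V U)
  | mulDual {ι : Type} {a : Fintype ι} {b : DecidableEq ι} {U : Γ →* Matrix ι ι k} :
      IsTensorPower V ι a b U → IsTensorPower V (n × ι) _ _ (tensor (dual V) U)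

end Pool.Agent.V8H88.GO
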