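import Pool.Agent.V8H88.GO.Pts
import Pool.Agent.V8H88.GO.Defs

/-!
# Irreducible representations whose coefficients are polynomials in those of `V`
-/

set_option autoImplicit false

namespace Pool.Agent.V8H88.GO

open Matrix

variable {k Γ : Type} [Field k] [Group Γ]

/-- right translation -/
def rt (γ : Γ) : (Γ → k) →ₗ[k] (Γ → k) where
  toFun f x := f (x * γ)
  map_add' _ _ := rfl
  map_smul' _ _ := rfl

theorem rt_rt (γ δ : Γ) (f : Γ → k) : rt γ (rt δ f) = rt (γ * δ) f := by
  funext x; simp [rt, mul_assoc]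

theorem rt_one (f : Γ → k) : rt 1 f = f := by
  funext x; simp [rt]

/-- the translates of a function -/
def ET (t : Γ → k) : Submodule k (Γ → k) := Submodule.span k (Set.range fun γ => rt γ t)

theorem ET_stable (t : Γ → k) (γ : Γ) (f : Γ → k) (hf : f ∈ ET t) : rt γ f ∈ ET t := by
  have : (ET t).map (rt γ) ≤ ET t := by
    rw [ET, Submodule.map_span, Submodule.span_le]
    rintro _ ⟨_, ⟨δ, rfl⟩, rfl⟩
    rw [rt_rt]
    exact Submodule.subset_span ⟨γ * δ, rfl⟩
  exact this (Submodule.mem_map_of_mem hf)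

/-- a row of matrix coefficients -/
def row {ι : Type} [Fintype ι] [DecidableEq ι] (U : Γ →* Matrix ι ι k) (p : ι) :
    (ι → k) →ₗ[k] (Γ → k) where
  toFun v x := (U x *ᵥ v) p
  map_add' v w := by funext x; simp [mulVec_add]
  map_smul' c v := by funext x; simp [mulVec_smul]

theorem row_apply {ι : Type} [Fintype ι] [DecidableEq ι] (U : Γ →* Matrix ι ι k) (p : ι)
    (v : ι → k) (x : Γ) : row U p v x = (U x *ᵥ v) p := rfl

theorem row_equiv {ι : Type} [Fintype ι] [DecidableEq ι] (U : Γ →* Matrix ι ι k) (p : ι)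
    (γ : Γ) (v : ι → k) : row U p (U γ *ᵥ v) = rt γ (row U p v) := by
  funext x
  simp [row_apply, rt, map_mul, mulVec_mulVec]

theorem row_single {ι : Type} [Fintype ι] [DecidableEq ι] (U : Γ →* Matrix ι ι k) (p q : ι) :
    row U p (Pi.single q 1) = ent U p q := by
  funext x
  simp [row_apply, ent]

theorem ET_le {ι : Type} [Fintype ι] [DecidableEq ι] (U : Γ →* Matrix ι ι k) (p q : ι) :
    ET (ent U p q) ≤ LinearMap.range (row U p) := by
  rw [ET, Submodule.span_le]
  rintro _ ⟨γ, rfl⟩
  exact ⟨U γ *ᵥ Pi.single q 1, by rw [row_equiv, row_single]⟩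

variable {m : Type} [Fintype m] [DecidableEq m] {W : Γ →* Matrix m m k}

theorem row_inj (hW : IsIrreducible W) (i : m) : LinearMap.ker (row W i) = ⊥ := by
  rcases hW.2 (LinearMap.ker (row W i)) (fun g x hx => by
    rw [LinearMap.mem_ker] at hx ⊢
    rw [row_equiv, hx, map_zero]) with h | h
  · exact h
  · exfalso
    have h1 : (Pi.single i 1 : m → k) ∈ LinearMap.ker (row W i) := by rw [h]; trivial
    rw [LinearMap.mem_ker] at h1
    have h2 := congrFun h1 1
    simp [row_apply] at h2

/-- A simple submodule of a sum of finitely many modules. -/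
theorem exists_step (hW : IsIrreducible W) (i : m) (T : Finset (Γ → k))
    (hT : LinearMap.range (row W i) ≤ ⨆ t ∈ T, ET t) :
    ∃ t ∈ T, ∃ E : Submodule k (Γ → k), (∀ γ, ∀ f ∈ E, rt γ f ∈ E) ∧
      LinearMap.range (row W i) ≤ ET t ⊔ E ∧ LinearMap.range (row W i) ⊓ E = ⊥ := by
  classical
  induction T using Finset.induction_on with
  | empty =>
    exfalso
    have h1 : (Pi.single i 1 : m → k) ∈ LinearMap.ker (row W i) := by
      rw [LinearMap.mem_ker]
      have := hT ⟨Pi.single i 1, rfl⟩
      simpa using this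
    rw [row_inj hW i] at h1
    have h2 := congrFun ((Submodule.mem_bot k).mp h1) i
    simp at h2
  | insert t T ht ih =>
    set E : Submodule k (Γ → k) := ⨆ s ∈ T, ET s with hE
    have hst : ∀ γ, ∀ f ∈ E, rt γ f ∈ E := by
      intro γ f hf
      have : E.map (rt γ) ≤ E := by
        rw [hE, Submodule.map_iSup]
        refine iSup_mono fun s => ?_
        rw [Submodule.map_iSup]
        refine iSup_mono fun hs => ?_
        rintro _ ⟨f, hf, rfl⟩
        exact ET_stable s γ f hf
      exact this (Submodule.mem_map_of_mem hf)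
    have hT' : LinearMap.range (row W i) ≤ ET t ⊔ E := by
      rw [Finset.iSup_insert] at hT
      exact hT
    rcases hW.2 (E.comap (row W i)) (fun g x hx => by
      rw [Submodule.mem_comap] at hx ⊢
      rw [row_equiv]; exact hst g _ hx) with h | h
    · refine ⟨t, Finset.mem_insert_self t T, E, hst, hT', ?_⟩
      rw [eq_bot_iff]
      rintro _ ⟨⟨v, rfl⟩, hv⟩
      have h3 : v ∈ E.comap (row W i) := hv
      rw [h, Submodule.mem_bot] at h3
      rw [h3, map_zero]; exact Submodule.zero_mem _
    · have h4 : LinearMap.range (row W i) ≤ E := by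
        rintro _ ⟨v, rfl⟩
        have : v ∈ E.comap (row W i) := by rw [h]; trivial
        exact this
      obtain ⟨s, hs, F, h5⟩ := ih h4
      exact ⟨s, Finset.mem_insert_of_mem hs, F, h5⟩

/-- From submodules of quotients of coefficient spaces to subquotients. -/
theorem sub_of_step (hW : IsIrreducible W) (i : m) {ι : Type} [Fintype ι] [DecidableEq ι]
    (U : Γ →* Matrix ι ι k) (p q : ι) (E : Submodule k (Γ → k))
    (hE : ∀ γ, ∀ f ∈ E, rt γ f ∈ E)
    (h1 : LinearMap.range (row W i) ≤ ET (ent U p q) ⊔ E)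
    (h2 : LinearMap.range (row W i) ⊓ E = ⊥) : IsSubquotient W U := by
  -- the projection
  let S : ((m → k) × E) →ₗ[k] (Γ → k) := (row W i).coprod E.subtype
  have hS : LinearMap.ker S = ⊥ := by
    rw [eq_bot_iff]
    rintro ⟨w, e⟩ h
    rw [LinearMap.mem_ker] at h
    have h3 : row W i w = -(e : Γ → k) := by
      have : row W i w + (e : Γ → k) = 0 := h
      exact eq_neg_of_add_eq_zero_left this
    have h4 : row W i w ∈ LinearMap.range (row W i) ⊓ E :=
      ⟨⟨w, rfl⟩, by rw [h3]; exact E.neg_mem e.2⟩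
    rw [h2, Submodule.mem_bot] at h4
    have h5 : w = 0 := by
      have : w ∈ LinearMap.ker (row W i) := h4
      rw [row_inj hW i] at this
      exact (Submodule.mem_bot k).mp this
    have h6 : e = 0 := by
      apply Subtype.ext
      rw [h4] at h3
      exact neg_eq_zero.mp h3.symm
    rw [h5, h6]; exact Submodule.zero_mem _
  obtain ⟨G, hG⟩ := LinearMap.exists_leftInverse_of_injective S hS
  have hGv : ∀ w (e : Γ → k), e ∈ E → (G (row W i w + e)).1 = w := by
    intro w e he
    have := LinearMap.congr_fun hG (w, ⟨e, he⟩)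
    have h7 : S (w, ⟨e, he⟩) = row W i w + e := rfl
    rw [LinearMap.comp_apply, h7] at this
    rw [this]; rfl
  refine ⟨(LinearMap.range (row W i) ⊔ E).comap (row U p),
    (LinearMap.fst k (m → k) E).comp (G.comp (row U p)), ?_, ?_⟩
  · intro g x hx
    rw [Submodule.mem_comap, Submodule.mem_sup] at hx
    obtain ⟨_, ⟨w, rfl⟩, e, he, hx⟩ := hx
    have h8 : row U p (U g *ᵥ x) = row W i (W g *ᵥ w) + rt g e := by
      rw [row_equiv, ← hx, map_add, row_equiv]
    refine ⟨?_, ?_⟩
    · rw [Submodule.mem_comap, h8]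
      exact Submodule.add_mem_sup ⟨_, rfl⟩ (hE g e he)
    · change (G (row U p (U g *ᵥ x))).1 = W g *ᵥ (G (row U p x)).1
      rw [h8, ← hx, hGv _ _ (hE g e he), hGv _ _ he]
  · rw [eq_top_iff]
    rintro w -
    have h9 := h1 ⟨w, rfl⟩
    rw [Submodule.mem_sup] at h9
    obtain ⟨a, ha, e, he, hae⟩ := h9
    obtain ⟨v, rfl⟩ := ET_le U p q ha
    have h10 : row U p v = row W i w + -e := by rw [← hae]; abel
    refine ⟨v, ?_, ?_⟩
    · change row U p v ∈ LinearMap.range (row W i) ⊔ E
      rw [h10]
      exact Submodule.add_mem_sup ⟨w, rfl⟩ (E.neg_mem he)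
    · change (G (row U p v)).1 = w
      rw [h10, hGv _ _ (E.neg_mem he)]

/-- Products of generators are coefficients of tensor powers. -/
theorem closure_coef {n : Type} [Fintype n] [DecidableEq n] (V : Γ →* Matrix n n k)
    (b : Γ → k) (hb : b ∈ Submonoid.closure (gens V)) :
    ∃ (ι : Type) (x : Fintype ι) (y : DecidableEq ι) (U : Γ →* Matrix ι ι k) (p q : ι),
      IsTensorPower V ι x y U ∧ b = ent U p q := by
  induction hb using Submonoid.closure_induction_left with
  | one => exact ⟨Unit, _, _, trivialRep k Γ, (), (), IsTensorPower.one, by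
      funext g; simp [ent, trivialRep]⟩
  | mul_left a ha b hb ih =>
    obtain ⟨ι, x, y, U, p, q, hU, rfl⟩ := ih
    rcases ha with ⟨r, rfl⟩ | ⟨r, rfl⟩
    · refine ⟨n × ι, _, _, tensor V U, (r.1, p), (r.2, q), IsTensorPower.mul hU, ?_⟩
      funext g; simp [ent, tensor]
    · refine ⟨n × ι, _, _, tensor (dual V) U, (r.2, p), (r.1, q), IsTensorPower.mulDual hU, ?_⟩
      funext g; simp [ent, tensor, dual]

/-- An irreducible representation whose coefficients are polynomials in those of `V` and its dual is a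
subquotient of a tensor power. -/
theorem exists_sub {n : Type} [Fintype n] [DecidableEq n] (V : Γ →* Matrix n n k)
    (hW : IsIrreducible W) (h : ∀ i j, ent W i j ∈ RA V) :
    ∃ (ι : Type) (x : Fintype ι) (y : DecidableEq ι) (U : Γ →* Matrix ι ι k),
      IsTensorPower V ι x y U ∧ IsSubquotient W U := by
  classical
  obtain ⟨i⟩ := hW.1
  have h1 : ∀ j, ∃ T : Finset (Γ → k), (T : Set (Γ → k)) ⊆ (Submonoid.closure (gens V) : Set _) ∧
      ent W i j ∈ Submodule.span k (T : Set (Γ → k)) := by
    intro j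
    have h2 := h i j
    rw [RA, ← Subalgebra.mem_toSubmodule, Algebra.adjoin_eq_span] at h2
    exact Submodule.mem_span_finite_of_mem_span h2
  choose T hT hT' using h1
  set T0 : Finset (Γ → k) := Finset.univ.biUnion T with hT0
  have h3 : LinearMap.range (row W i) ≤ ⨆ t ∈ T0, ET t := by
    rintro _ ⟨w, rfl⟩
    have h4 : row W i w = ∑ j, w j • ent W i j := by
      funext x
      rw [Finset.sum_apply]
      simp [row_apply, mulVec, dotProduct, ent, mul_comm]
    rw [h4]
    refine Submodule.sum_mem _ fun j _ => Submodule.smul_mem _ _ ?_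
    have h5 : Submodule.span k (T j : Set (Γ → k)) ≤ ⨆ t ∈ T0, ET t := by
      rw [Submodule.span_le]
      intro t ht
      have h6 : t ∈ T0 := Finset.mem_biUnion.mpr ⟨j, Finset.mem_univ j, ht⟩
      have h7 : ET t ≤ ⨆ t ∈ T0, ET t := le_iSup₂_of_le t h6 le_rfl
      exact h7 (Submodule.subset_span ⟨1, rt_one t⟩)
    exact h5 (hT' j)
  obtain ⟨t, ht, E, hE, h8, h9⟩ := exists_step hW i T0 h3
  have h10 : t ∈ Submonoid.closure (gens V) := by
    rw [hT0, Finset.mem_biUnion] at ht
    obtain ⟨j, -, hj⟩ := ht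
    exact hT j hj
  obtain ⟨ι, x, y, U, p, q, hU, rfl⟩ := closure_coef V t h10
  exact ⟨ι, x, y, U, hU, sub_of_step hW i U p q E hE h8 h9⟩

end Pool.Agent.V8H88.GO
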