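import Pool.Agent.V8H88.GO.Alg

/-!
# Algebras of functions on a group
-/

set_option autoImplicit false

namespace Pool.Agent.V8H88.GO

variable {k Γ : Type} [Field k] [Group Γ]

/-- left translation -/
def tr (x : Γ) (f : Γ → k) : Γ → k := fun y => f (x * y)

theorem descend [IsAlgClosed k] [CharZero k] (A B : Subalgebra k (Γ → k)) (hAB : A ≤ B)
    (hA : A.FG) (hB : B.FG) {ι : Type} [Fintype ι] (c : ι → Γ → k) (hc : ∀ i, c i ∈ B)
    (H1 : ∀ φ ψ : B →ₐ[k] k, (∀ a (ha : a ∈ A), φ ⟨a, hAB ha⟩ = ψ ⟨a, hAB ha⟩) →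
      ∀ i, φ ⟨c i, hc i⟩ = ψ ⟨c i, hc i⟩)
    (H2 : ∀ γ : Γ, ∀ a : Γ → k, a ∈ A → (∀ i, a * c i ∈ A) → ∀ i, tr γ a * c i ∈ A)
    (H2' : ∀ γ : Γ, ∀ a : Γ → k, a ∈ A → tr γ a ∈ A)
    (H3 : ∀ h : A →ₐ[k] k, ∀ a (ha : a ∈ A), (∀ γ, h ⟨tr γ a, H2' γ a ha⟩ = 0) → a = 0) (i : ι) :
    c i ∈ A := by
  classical
  let _ : Algebra A B := (Subalgebra.inclusion hAB).toAlgebra
  have hst : IsScalarTower k A B := IsScalarTower.of_algebraMap_eq fun x => rfl
  have hmap : ∀ a : A, algebraMap A B a = ⟨a.1, hAB a.2⟩ := fun a => rfl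
  have hFA : Algebra.FiniteType k A := (Subalgebra.fg_iff_finiteType A).mp hA
  have hFB : Algebra.FiniteType k B := (Subalgebra.fg_iff_finiteType B).mp hB
  have hrA : IsReduced A := isReduced_of_injective A.val Subtype.val_injective
  have hrB : IsReduced B := isReduced_of_injective B.val Subtype.val_injective
  have hinj : Function.Injective (algebraMap A B) := by
    intro x y h
    rw [hmap, hmap] at h
    exact Subtype.ext (congrArg (fun z : B => z.1) h)
  -- the ideal of denominators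
  let D : Ideal A :=
    { carrier := {a | ∀ i, (a : Γ → k) * c i ∈ A}
      add_mem' := by
        intro a b ha hb i
        rw [show ((a + b : A) : Γ → k) * c i = a * c i + b * c i by
          rw [Subalgebra.coe_add, add_mul]]
        exact A.add_mem (ha i) (hb i)
      zero_mem' := by
        intro i
        rw [Subalgebra.coe_zero, zero_mul]; exact A.zero_mem
      smul_mem' := by
        intro x a ha i
        rw [smul_eq_mul, Subalgebra.coe_mul, mul_assoc]
        exact A.mul_mem x.2 (ha i) }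
  have hD : ∀ a : A, a ∈ D ↔ ∀ i, (a : Γ → k) * c i ∈ A := fun a => Iff.rfl
  have hnP : ∀ P ∈ minimalPrimes A, ¬ D ≤ P := by
    intro P hP hDP
    have hPp : P.IsPrime := hP.1.1
    have h1 : ∀ i, ∃ s : A, s ∉ P ∧ (s : Γ → k) * c i ∈ A := by
      intro i
      obtain ⟨s, a, hs, h⟩ := exists_denom (k := k) hinj (⟨c i, hc i⟩ : B)
        (fun φ ψ h => H1 φ ψ (fun a ha => h ⟨a, ha⟩) i) P hP
      refine ⟨s, hs, ?_⟩
      rw [hmap, hmap] at h
      have h2 := congrArg (fun z : B => z.1) h
      simp only [Subalgebra.coe_mul] at h2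
      rw [h2]; exact a.2
    choose s hs hsA using h1
    have h3 : (∏ i, s i) ∈ D := by
      rw [hD]
      intro i
      have : ((∏ j, s j : A) : Γ → k) * c i =
          ((∏ j ∈ Finset.univ.erase i, s j : A) : Γ → k) * ((s i : Γ → k) * c i) := by
        rw [← Finset.mul_prod_erase Finset.univ s (Finset.mem_univ i), Subalgebra.coe_mul]
        ring
      rw [this]
      exact A.mul_mem (Subtype.property _) (hsA i)
    have h4 := hDP h3
    rw [hPp.prod_mem_iff] at h4
    obtain ⟨j, -, hj⟩ := h4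
    exact hs j hj
  have hnt : Nontrivial A := by
    refine ⟨0, 1, fun h => ?_⟩
    have := congrFun (congrArg (fun z : A => z.1) h) 1
    simp at this
  have hDtop : D = ⊤ := by
    by_contra hne
    obtain ⟨M, hM, hDM⟩ := Ideal.exists_le_maximal D hne
    obtain ⟨h, hh⟩ := exists_point (k := k) M hM
    have h0 : ∀ a : A, a ∈ D → a = 0 := by
      intro a ha
      have h5 : (a : Γ → k) = 0 := by
        refine H3 h a a.2 fun γ => ?_
        rw [hh]
        apply hDM
        rw [hD]
        exact H2 γ a a.2 ha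
      exact Subtype.ext h5
    obtain ⟨P, hP⟩ := (Ideal.nonempty_minimalPrimes (I := (⊥ : Ideal A)) bot_ne_top)
    apply hnP P hP
    intro a ha
    rw [h0 a ha]
    exact P.zero_mem
  have h6 : (1 : A) ∈ D := by rw [hDtop]; exact Submodule.mem_top
  have h7 := (hD 1).mp h6 i
  rwa [Subalgebra.coe_one, one_mul] at h7

end Pool.Agent.V8H88.GO
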