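import Pool.Agent.V8H88.GO.Fun

/-!
# Algebras of functions with a comultiplication
-/

set_option autoImplicit false

namespace Pool.Agent.V8H88.GO

variable {k Γ : Type} [Field k] [Group Γ]

/-- A finitely generated algebra of functions on a group with antipode and comultiplication. -/
structure Hopf (B : Subalgebra k (Γ → k)) : Prop where
  fg : B.FG
  inv : ∀ b ∈ B, (fun x => b x⁻¹) ∈ B
  com : ∀ b ∈ B, ∃ (ι : Type) (_ : Fintype ι) (p q : ι → Γ → k), (∀ i, p i ∈ B) ∧
    (∀ i, q i ∈ B) ∧ ∀ x y, b (x * y) = ∑ i, p i x * q i y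

namespace Hopf

variable {B : Subalgebra k (Γ → k)} (hB : Hopf B)

include hB

theorem tr_mem (x : Γ) {b : Γ → k} (hb : b ∈ B) : tr x b ∈ B := by
  obtain ⟨ι, _, p, q, hp, hq, h⟩ := hB.com b hb
  have : tr x b = ∑ i, p i x • q i := by
    funext y
    simp [tr, h, Finset.sum_apply]
  rw [this]
  exact B.sum_mem fun i _ => B.smul_mem (hq i) _

theorem rtr_mem (x : Γ) {b : Γ → k} (hb : b ∈ B) : (fun y => b (y * x)) ∈ B := by
  obtain ⟨ι, _, p, q, hp, hq, h⟩ := hB.com b hb
  have : (fun y => b (y * x)) = ∑ i, q i x • p i := by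
    funext y
    simp [h, Finset.sum_apply, mul_comm]
  rw [this]
  exact B.sum_mem fun i _ => B.smul_mem (hp i) _

theorem conv_mem (φ : B →ₐ[k] k) {b : Γ → k} (hb : b ∈ B) :
    (fun x => φ ⟨tr x b, hB.tr_mem x hb⟩) ∈ B := by
  obtain ⟨ι, _, p, q, hp, hq, h⟩ := hB.com b hb
  have : (fun x => φ ⟨tr x b, hB.tr_mem x hb⟩) = ∑ i, φ ⟨q i, hq i⟩ • p i := by
    funext x
    have h1 : (⟨tr x b, hB.tr_mem x hb⟩ : B) = ∑ i, p i x • (⟨q i, hq i⟩ : B) := by
      apply Subtype.ext
      rw [AddSubmonoidClass.coe_finsetSum]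
      funext y
      simp [tr, h, Finset.sum_apply]
    rw [h1, map_sum, Finset.sum_apply]
    refine Finset.sum_congr rfl fun i _ => ?_
    rw [map_smul, Pi.smul_apply, smul_eq_mul, smul_eq_mul, mul_comm]
  rw [this]
  exact B.sum_mem fun i _ => B.smul_mem (hp i) _

/-- convolution with a point -/
def conv (φ : B →ₐ[k] k) : B →ₐ[k] B where
  toFun b := ⟨fun x => φ ⟨tr x b.1, hB.tr_mem x b.2⟩, hB.conv_mem φ b.2⟩
  map_one' := by
    apply Subtype.ext; funext x
    exact (congrArg φ (Subtype.ext (by funext y; rfl))).trans (map_one φ)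
  map_mul' _ _ := by
    apply Subtype.ext; funext x
    exact (congrArg φ (Subtype.ext (by funext y; rfl))).trans (map_mul φ _ _)
  map_zero' := by
    apply Subtype.ext; funext x
    exact (congrArg φ (Subtype.ext (by funext y; rfl))).trans (map_zero φ)
  map_add' _ _ := by
    apply Subtype.ext; funext x
    exact (congrArg φ (Subtype.ext (by funext y; rfl))).trans (map_add φ _ _)
  commutes' c := by
    apply Subtype.ext; funext x
    exact (congrArg φ (Subtype.ext (by funext y; rfl))).trans (φ.commutes c)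

/-- composition with the inverse -/
def antip : B →ₐ[k] B where
  toFun b := ⟨fun x => b.1 x⁻¹, hB.inv b.1 b.2⟩
  map_one' := rfl
  map_mul' _ _ := rfl
  map_zero' := rfl
  map_add' _ _ := rfl
  commutes' _ := rfl

/-- conjugation -/
def conj (γ : Γ) : B →ₐ[k] B where
  toFun b := ⟨fun x => b.1 (γ * x * γ⁻¹), by
    have := hB.rtr_mem γ⁻¹ (hB.tr_mem γ b.2)
    convert this using 2 with x
    simp [tr, mul_assoc]⟩
  map_one' := rfl
  map_mul' _ _ := rfl
  map_zero' := rfl
  map_add' _ _ := rfl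
  commutes' _ := rfl

theorem conv_apply (φ : B →ₐ[k] k) (b : B) (x : Γ) :
    (hB.conv φ b).1 x = φ ⟨tr x b.1, hB.tr_mem x b.2⟩ := rfl

theorem conv_eq (φ : B →ₐ[k] k) (b : B) {ι : Type} [Fintype ι] (p q : ι → B)
    (h : ∀ x y, b.1 (x * y) = ∑ i, (p i).1 x * (q i).1 y) :
    hB.conv φ b = ∑ i, φ (q i) • p i := by
  apply Subtype.ext
  funext x
  rw [conv_apply]
  have h1 : (⟨tr x b.1, hB.tr_mem x b.2⟩ : B) = ∑ i, (p i).1 x • q i := by
    apply Subtype.ext
    rw [AddSubmonoidClass.coe_finsetSum]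
    funext y
    simp [tr, h, Finset.sum_apply]
  rw [h1, map_sum, AddSubmonoidClass.coe_finsetSum, Finset.sum_apply]
  refine Finset.sum_congr rfl fun i _ => ?_
  rw [map_smul, Subalgebra.coe_smul, Pi.smul_apply, smul_eq_mul, smul_eq_mul, mul_comm]

/-- `φ⁻¹ φ = 1` -/
theorem inv_conv (φ : B →ₐ[k] k) (b : B) : φ (hB.antip (hB.conv φ b)) = b.1 1 := by
  obtain ⟨ι, _, p, q, hp, hq, h⟩ := hB.com b.1 b.2
  rw [hB.conv_eq φ b (fun i => ⟨p i, hp i⟩) (fun i => ⟨q i, hq i⟩) h, map_sum, map_sum]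
  have h2 : ∑ i, φ (hB.antip (φ ⟨q i, hq i⟩ • (⟨p i, hp i⟩ : B))) =
      φ (∑ i, (⟨q i, hq i⟩ : B) * hB.antip ⟨p i, hp i⟩) := by
    rw [map_sum]
    refine Finset.sum_congr rfl fun i _ => ?_
    rw [map_smul, map_smul, map_mul, smul_eq_mul]
  rw [h2]
  have h3 : (∑ i, (⟨q i, hq i⟩ : B) * hB.antip ⟨p i, hp i⟩) = algebraMap k B (b.1 1) := by
    apply Subtype.ext
    rw [AddSubmonoidClass.coe_finsetSum]
    funext x
    have h4 := h x⁻¹ x
    rw [inv_mul_cancel] at h4
    rw [Finset.sum_apply]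
    change _ = b.1 1
    rw [h4]
    refine Finset.sum_congr rfl fun i _ => ?_
    change q i x * p i x⁻¹ = _
    rw [mul_comm]
  rw [h3, φ.commutes]; rfl

/-- A function all of whose left translates vanish at a point is zero. -/
theorem eq_zero (φ : B →ₐ[k] k) (b : B) (h0 : hB.conv φ b = 0) : b = 0 := by
  obtain ⟨ι, _, p, q, hp, hq, h⟩ := hB.com b.1 b.2
  have h1 := hB.conv_eq φ b (fun i => ⟨p i, hp i⟩) (fun i => ⟨q i, hq i⟩) h
  rw [h0] at h1
  apply Subtype.ext
  funext z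
  -- the function `y ↦ ∑ p_i (z y⁻¹) q_i (y)` is constant
  have h2 : (∑ i, hB.antip ⟨tr z (p i), hB.tr_mem z (hp i)⟩ * (⟨q i, hq i⟩ : B)) =
      algebraMap k B (b.1 z) := by
    apply Subtype.ext
    rw [AddSubmonoidClass.coe_finsetSum]
    funext y
    have h4 := h (z * y⁻¹) y
    rw [inv_mul_cancel_right] at h4
    rw [Finset.sum_apply]
    change _ = b.1 z
    rw [h4]
    rfl
  have h3 := congrArg φ h2
  rw [φ.commutes, map_sum] at h3
  have h5 : ∑ i, φ (hB.antip ⟨tr z (p i), hB.tr_mem z (hp i)⟩ * (⟨q i, hq i⟩ : B)) =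
      φ (hB.antip (∑ i, φ ⟨q i, hq i⟩ • ⟨tr z (p i), hB.tr_mem z (hp i)⟩)) := by
    rw [map_sum, map_sum]
    refine Finset.sum_congr rfl fun i _ => ?_
    rw [map_mul, map_smul, map_smul, smul_eq_mul, mul_comm]
  have h6 : (∑ i, φ ⟨q i, hq i⟩ • (⟨tr z (p i), hB.tr_mem z (hp i)⟩ : B)) = 0 := by
    apply Subtype.ext
    rw [AddSubmonoidClass.coe_finsetSum]
    funext y
    have h7 := congrFun (congrArg (fun t : B => t.1) h1) (z * y)
    rw [AddSubmonoidClass.coe_finsetSum, Finset.sum_apply] at h7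
    rw [Finset.sum_apply]
    exact h7.symm
  rw [h5, h6, map_zero, map_zero] at h3
  exact h3.symm

end Hopf

/-- The conditions on a set of generators. -/
theorem Hopf.of_gens (G : Set (Γ → k)) (hfin : G.Finite)
    (hinv : ∀ b ∈ G, (fun x => b x⁻¹) ∈ Algebra.adjoin k G)
    (hcom : ∀ b ∈ G, ∃ (ι : Type) (_ : Fintype ι) (p q : ι → Γ → k),
      (∀ i, p i ∈ Algebra.adjoin k G) ∧ (∀ i, q i ∈ Algebra.adjoin k G) ∧
      ∀ x y, b (x * y) = ∑ i, p i x * q i y) : Hopf (Algebra.adjoin k G) := by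
  refine ⟨?_, fun b hb => ?_, fun b hb => ?_⟩
  · exact Subalgebra.fg_def.mpr ⟨G, hfin, rfl⟩
  · induction hb using Algebra.adjoin_induction with
    | mem x hx => exact hinv x hx
    | algebraMap r => exact Subalgebra.algebraMap_mem _ r
    | add x y _ _ h1 h2 => exact Subalgebra.add_mem _ h1 h2
    | mul x y _ _ h1 h2 => exact Subalgebra.mul_mem _ h1 h2
  · induction hb using Algebra.adjoin_induction with
    | mem x hx => exact hcom x hx
    | algebraMap r =>
      refine ⟨Unit, inferInstance, fun _ => algebraMap k (Γ → k) r, fun _ => 1,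
        fun _ => Subalgebra.algebraMap_mem _ r, fun _ => Subalgebra.one_mem _, fun x y => ?_⟩
      simp
    | add x y _ _ h1 h2 =>
      obtain ⟨ι, _, p, q, hp, hq, h⟩ := h1
      obtain ⟨ι', _, p', q', hp', hq', h'⟩ := h2
      refine ⟨ι ⊕ ι', inferInstance, Sum.elim p p', Sum.elim q q', ?_, ?_, fun x y => ?_⟩
      · rintro (i | i)
        · exact hp i
        · exact hp' i
      · rintro (i | i)
        · exact hq i
        · exact hq' i
      · simp [h, h', Fintype.sum_sum_type]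
    | mul x y _ _ h1 h2 =>
      obtain ⟨ι, _, p, q, hp, hq, h⟩ := h1
      obtain ⟨ι', _, p', q', hp', hq', h'⟩ := h2
      refine ⟨ι × ι', inferInstance, fun i => p i.1 * p' i.2, fun i => q i.1 * q' i.2,
        fun i => Subalgebra.mul_mem _ (hp i.1) (hp' i.2),
        fun i => Subalgebra.mul_mem _ (hq i.1) (hq' i.2), fun x y => ?_⟩
      rw [Fintype.sum_prod_type, Pi.mul_apply, h, h', Finset.sum_mul_sum]
      refine Finset.sum_congr rfl fun i _ => Finset.sum_congr rfl fun j _ => ?_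
      simp only [Pi.mul_apply]
      ring

end Pool.Agent.V8H88.GO
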