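import Pool.Agent.V8H88.GO.Hopf

/-!
# The kernel of the homomorphism of algebraic hulls, and the descent of matrix coefficients
-/

set_option autoImplicit false

namespace Pool.Agent.V8H88.GO

variable {k Γ : Type} [Field k] [Group Γ]

section gens

variable {n : Type} [Fintype n] [DecidableEq n]

/-- matrix coefficients -/
def ent (U : Γ →* Matrix n n k) (i j : n) : Γ → k := fun g => U g i j

/-- the matrix coefficients, and those of the inverse -/
def gens (U : Γ →* Matrix n n k) : Set (Γ → k) :=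
  Set.range (fun p : n × n => ent U p.1 p.2) ∪
    Set.range (fun p : n × n => fun g => ent U p.1 p.2 g⁻¹)

theorem gens_finite (U : Γ →* Matrix n n k) : (gens U).Finite :=
  (Set.finite_range _).union (Set.finite_range _)

theorem ent_mem (U : Γ →* Matrix n n k) (i j : n) : ent U i j ∈ gens U := Or.inl ⟨(i, j), rfl⟩

theorem ent_inv_mem (U : Γ →* Matrix n n k) (i j : n) : (fun g => ent U i j g⁻¹) ∈ gens U :=
  Or.inr ⟨(i, j), rfl⟩

theorem ent_mul (U : Γ →* Matrix n n k) (i j : n) (x y : Γ) :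
    ent U i j (x * y) = ∑ l, ent U i l x * ent U l j y := by
  simp [ent, map_mul, Matrix.mul_apply]

theorem ent_one (U : Γ →* Matrix n n k) (i j : n) :
    ent U i j 1 = (1 : Matrix n n k) i j := by
  simp [ent]

theorem gens_inv (U : Γ →* Matrix n n k) (b : Γ → k) (hb : b ∈ gens U) :
    (fun x => b x⁻¹) ∈ gens U := by
  rcases hb with ⟨p, rfl⟩ | ⟨p, rfl⟩
  · exact ent_inv_mem U _ _
  · simp only [inv_inv]
    exact ent_mem U _ _

theorem gens_com (U : Γ →* Matrix n n k) (b : Γ → k) (hb : b ∈ gens U) :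
    ∃ (ι : Type) (_ : Fintype ι) (p q : ι → Γ → k), (∀ i, p i ∈ gens U) ∧ (∀ i, q i ∈ gens U) ∧
      ∀ x y, b (x * y) = ∑ i, p i x * q i y := by
  rcases hb with ⟨p, rfl⟩ | ⟨p, rfl⟩
  · exact ⟨n, inferInstance, fun l => ent U p.1 l, fun l => ent U l p.2,
      fun l => ent_mem U _ _, fun l => ent_mem U _ _, fun x y => ent_mul U _ _ x y⟩
  · refine ⟨n, inferInstance, fun l => fun g => ent U l p.2 g⁻¹, fun l => fun g => ent U p.1 l g⁻¹,
      fun l => ent_inv_mem U _ _, fun l => ent_inv_mem U _ _, fun x y => ?_⟩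
    simp only [mul_inv_rev, ent_mul]
    exact Finset.sum_congr rfl fun l _ => mul_comm _ _

end gens

section two

variable {n m : Type} [Fintype n] [DecidableEq n] [Fintype m] [DecidableEq m]

/-- the algebra of the matrix coefficients of `V` -/
def RA (V : Γ →* Matrix n n k) : Subalgebra k (Γ → k) := Algebra.adjoin k (gens V)

/-- the algebra of the matrix coefficients of `V` and `W` -/
def RB (V : Γ →* Matrix n n k) (W : Γ →* Matrix m m k) : Subalgebra k (Γ → k) :=
  Algebra.adjoin k (gens V ∪ gens W)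

theorem RA_le (V : Γ →* Matrix n n k) (W : Γ →* Matrix m m k) : RA V ≤ RB V W :=
  Algebra.adjoin_mono Set.subset_union_left

theorem hopfA (V : Γ →* Matrix n n k) : Hopf (RA V) := by
  refine Hopf.of_gens _ (gens_finite V) (fun b hb => Algebra.subset_adjoin (gens_inv V b hb))
    fun b hb => ?_
  obtain ⟨ι, h, p, q, hp, hq, e⟩ := gens_com V b hb
  exact ⟨ι, h, p, q, fun i => Algebra.subset_adjoin (hp i), fun i => Algebra.subset_adjoin (hq i), e⟩

theorem hopfB (V : Γ →* Matrix n n k) (W : Γ →* Matrix m m k) : Hopf (RB V W) := by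
  refine Hopf.of_gens _ ((gens_finite V).union (gens_finite W)) (fun b hb => ?_)
    fun b hb => ?_
  · rcases hb with hb | hb
    · exact Algebra.subset_adjoin (Or.inl (gens_inv V b hb))
    · exact Algebra.subset_adjoin (Or.inr (gens_inv W b hb))
  · rcases hb with hb | hb
    · obtain ⟨ι, h, p, q, hp, hq, e⟩ := gens_com V b hb
      exact ⟨ι, h, p, q, fun i => Algebra.subset_adjoin (Or.inl (hp i)),
        fun i => Algebra.subset_adjoin (Or.inl (hq i)), e⟩
    · obtain ⟨ι, h, p, q, hp, hq, e⟩ := gens_com W b hb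
      exact ⟨ι, h, p, q, fun i => Algebra.subset_adjoin (Or.inr (hp i)),
        fun i => Algebra.subset_adjoin (Or.inr (hq i)), e⟩

variable (V : Γ →* Matrix n n k) (W : Γ →* Matrix m m k)

theorem memA (i j : n) : ent V i j ∈ RA V := Algebra.subset_adjoin (ent_mem V i j)

theorem memV (i j : n) : ent V i j ∈ RB V W := RA_le V W (memA V i j)

theorem memW (i j : m) : ent W i j ∈ RB V W := Algebra.subset_adjoin (Or.inr (ent_mem W i j))

/-- the matrix of a point -/
def matW (χ : RB V W →ₐ[k] k) : Matrix m m k := fun i j => χ ⟨ent W i j, memW V W i j⟩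

/-- the points which are trivial on the first algebra -/
def Triv (χ : RB V W →ₐ[k] k) : Prop :=
  ∀ (a : Γ → k) (ha : a ∈ RA V), χ ⟨a, RA_le V W ha⟩ = a 1

/-- product of points -/
def pmul (χ ψ : RB V W →ₐ[k] k) : RB V W →ₐ[k] k := χ.comp ((hopfB V W).conv ψ)

theorem conv_ent (ψ : RB V W →ₐ[k] k) (i j : m) :
    (hopfB V W).conv ψ ⟨ent W i j, memW V W i j⟩ =
      ∑ l, matW V W ψ l j • (⟨ent W i l, memW V W i l⟩ : RB V W) :=
  (hopfB V W).conv_eq ψ ⟨ent W i j, memW V W i j⟩ (fun l => ⟨ent W i l, memW V W i l⟩)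
    (fun l => ⟨ent W l j, memW V W l j⟩) (fun x y => ent_mul W i j x y)

theorem matW_pmul (χ ψ : RB V W →ₐ[k] k) :
    matW V W (pmul V W χ ψ) = matW V W χ * matW V W ψ := by
  ext i j
  rw [Matrix.mul_apply]
  change χ ((hopfB V W).conv ψ ⟨ent W i j, memW V W i j⟩) = _
  rw [conv_ent, map_sum]
  refine Finset.sum_congr rfl fun l _ => ?_
  rw [map_smul, smul_eq_mul, mul_comm]; rfl

/-- inverse of a point -/
def pinv (χ : RB V W →ₐ[k] k) : RB V W →ₐ[k] k := χ.comp (hopfB V W).antip

theorem pinv_pmul (χ : RB V W →ₐ[k] k) (b : RB V W) : pmul V W (pinv V W χ) χ b = b.1 1 :=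
  (hopfB V W).inv_conv χ b

theorem matW_pinv_mul (χ : RB V W →ₐ[k] k) : matW V W (pinv V W χ) * matW V W χ = 1 := by
  rw [← matW_pmul]
  ext i j
  change pmul V W (pinv V W χ) χ ⟨ent W i j, memW V W i j⟩ = _
  rw [pinv_pmul, ← ent_one W]

theorem triv_pmul {χ ψ : RB V W →ₐ[k] k} (hχ : Triv V W χ) (hψ : Triv V W ψ) :
    Triv V W (pmul V W χ ψ) := by
  intro a ha
  change χ ((hopfB V W).conv ψ ⟨a, RA_le V W ha⟩) = _
  have h1 : (hopfB V W).conv ψ ⟨a, RA_le V W ha⟩ = ⟨a, RA_le V W ha⟩ := by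
    apply Subtype.ext
    funext x
    rw [Hopf.conv_apply]
    have := hψ (tr x a) ((hopfA V).tr_mem x ha)
    rw [this]; simp [tr]
  rw [h1]
  exact hχ a ha

/-- conjugate of a point -/
def pconj (γ : Γ) (χ : RB V W →ₐ[k] k) : RB V W →ₐ[k] k := χ.comp ((hopfB V W).conj γ)

theorem triv_pconj {χ : RB V W →ₐ[k] k} (γ : Γ) (hχ : Triv V W χ) :
    Triv V W (pconj V W γ χ) := by
  intro a ha
  have h1 : (fun x => a (γ * x * γ⁻¹)) ∈ RA V := ((hopfA V).conj γ ⟨a, ha⟩).2
  have h2 := hχ _ h1
  change χ ⟨fun x => a (γ * x * γ⁻¹), _⟩ = _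
  rw [h2]; simp

theorem matW_pconj (γ : Γ) (χ : RB V W →ₐ[k] k) :
    matW V W (pconj V W γ χ) = W γ * matW V W χ * W γ⁻¹ := by
  ext i j
  have h1 : (hopfB V W).conj γ ⟨ent W i j, memW V W i j⟩ =
      ∑ l, ∑ l', (W γ i l * W γ⁻¹ l' j) • (⟨ent W l l', memW V W l l'⟩ : RB V W) := by
    apply Subtype.ext
    funext x
    change W (γ * x * γ⁻¹) i j = _
    rw [map_mul, map_mul, Matrix.mul_apply]
    simp only [AddSubmonoidClass.coe_finsetSum, Finset.sum_apply, Subalgebra.coe_smul,
      Pi.smul_apply, smul_eq_mul, Matrix.mul_apply, Finset.sum_mul]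
    rw [Finset.sum_comm]
    refine Finset.sum_congr rfl fun l _ => Finset.sum_congr rfl fun l' _ => ?_
    simp only [ent]; ring
  change χ ((hopfB V W).conj γ ⟨ent W i j, memW V W i j⟩) = _
  rw [h1, map_sum, Matrix.mul_apply]
  simp only [map_sum, map_smul, Matrix.mul_apply, Finset.sum_mul, smul_eq_mul]
  rw [Finset.sum_comm]
  refine Finset.sum_congr rfl fun l _ => Finset.sum_congr rfl fun l' _ => ?_
  simp only [matW]; ring

/-- If the points which are trivial on the coefficients of `V` are trivial on the coefficients of `W`,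
then the coefficients of `W` are polynomials in those of `V` and of the dual of `V`. -/
theorem entries_mem [IsAlgClosed k] [CharZero k]
    (hN : ∀ χ : RB V W →ₐ[k] k, Triv V W χ → matW V W χ = 1) (i j : m) : ent W i j ∈ RA V := by
  refine descend (RA V) (RB V W) (RA_le V W) (hopfA V).fg (hopfB V W).fg
    (ι := m × m) (fun p => ent W p.1 p.2) (fun p => memW V W p.1 p.2) ?_ ?_
    (fun γ a ha => (hopfA V).tr_mem γ ha) ?_ (i, j)
  · intro φ ψ h p
    have h1 : Triv V W (pmul V W (pinv V W φ) ψ) := by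
      intro a ha
      have h2 := pinv_pmul V W φ ⟨a, RA_le V W ha⟩
      refine Eq.trans ?_ h2
      change (pinv V W φ) ((hopfB V W).conv ψ ⟨a, RA_le V W ha⟩) =
        (pinv V W φ) ((hopfB V W).conv φ ⟨a, RA_le V W ha⟩)
      congr 1
      apply Subtype.ext
      funext x
      rw [Hopf.conv_apply, Hopf.conv_apply]
      exact (h (tr x a) ((hopfA V).tr_mem x ha)).symm
    have h3 := hN _ h1
    rw [matW_pmul] at h3
    have h4 := matW_pinv_mul V W φ
    have h5 : matW V W φ * matW V W (pinv V W φ) = 1 := mul_eq_one_comm.mp h4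
    have h6 : matW V W φ = matW V W ψ := by
      calc matW V W φ = matW V W φ * (matW V W (pinv V W φ) * matW V W ψ) := by rw [h3, mul_one]
        _ = matW V W ψ := by rw [← mul_assoc, h5, one_mul]
    exact congrFun (congrFun h6 p.1) p.2
  · intro γ a ha hai p
    have h1 : tr γ a * ent W p.1 p.2 = ∑ l, W γ⁻¹ p.1 l • tr γ (a * ent W l p.2) := by
      funext x
      rw [Finset.sum_apply]
      have h2 : ent W p.1 p.2 x = ∑ l, W γ⁻¹ p.1 l * ent W l p.2 (γ * x) := by
        have h3 := ent_mul W p.1 p.2 γ⁻¹ (γ * x)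
        rw [inv_mul_cancel_left] at h3
        exact h3
      rw [Pi.mul_apply, h2, Finset.mul_sum]
      refine Finset.sum_congr rfl fun l _ => ?_
      simp only [tr, Pi.smul_apply, Pi.mul_apply, smul_eq_mul]
      ring
    rw [h1]
    exact Subalgebra.sum_mem _ fun l _ => Subalgebra.smul_mem _
      ((hopfA V).tr_mem γ (hai (l, p.2))) _
  · intro h a ha h0
    have h1 := (hopfA V).eq_zero h ⟨a, ha⟩ (by
      apply Subtype.ext
      funext x
      exact h0 x)
    exact congrArg (fun t : RA V => t.1) h1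

end two

end Pool.Agent.V8H88.GO
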